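import Pool.Agent.H165R4.CU.Stmts

set_option autoImplicit false

/-!
# Absolutely continuous conditional measures on the unstable arcs
-/

open Set Filter Topology MeasureTheory Function
open scoped ContDiff ENNReal Real

namespace Pool.Agent.H165R4.CU.ACt

/-- the circle -/
abbrev U : Type := UnitAddCircle

/-- Lebesgue measure on the unit interval -/
noncomputable abbrev v01 : Measure ℝ := volume.restrict (Ico (0 : ℝ) 1)

instance : IsProbabilityMeasure v01 := ⟨by simp [v01]⟩

lemma rep_mem (a : U) : rep a ∈ Ico (0 : ℝ) 1 := by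
  have h := (AddCircle.equivIco 1 0 a).2
  exact ⟨h.1, lt_of_lt_of_eq h.2 (zero_add 1)⟩

lemma coe_rep (a : U) : ((rep a : ℝ) : U) = a :=
  (AddCircle.equivIco 1 0).symm_apply_apply a

lemma rep_coe {t : ℝ} (ht : t ∈ Ico (0 : ℝ) 1) : rep (t : U) = t := by
  have h := (AddCircle.equivIco (1 : ℝ) 0).apply_symm_apply ⟨t, by rw [zero_add]; exact ht⟩
  exact congrArg Subtype.val h

lemma rep_meas : Measurable rep :=
  measurable_subtype_coe.comp (AddCircle.measurableEquivIco (1 : ℝ) 0).measurable

lemma coe_mp : MeasurePreserving (fun t : ℝ => (t : U)) v01 volume := by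
  have h := AddCircle.measurePreserving_mk (1 : ℝ) 0
  rw [zero_add] at h
  have h2 : v01 = volume.restrict (Ioc (0 : ℝ) 1) := Measure.restrict_congr_set Ico_ae_eq_Ioc
  rw [h2]
  exact h

lemma vol_prob : IsProbabilityMeasure (volume : Measure U) := ⟨UnitAddCircle.measure_univ⟩

lemma inv_aux (φ r : ℝ) (h : 0 < φ) (hsq : φ ^ 2 = φ + 1) : r / φ = φ * r - r := by
  rw [div_eq_iff h.ne']
  linear_combination (-r) * hsq

/-- the inclusion of the invariant torus -/
def io (w : U × U) : T3 := (w.1, w.2, 0)

lemma io_cont : Continuous io := by unfold io; fun_prop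

lemma io_inj : Injective io := by
  rintro ⟨a, b⟩ ⟨c, d⟩ h
  simp only [io, Prod.mk.injEq, and_true] at h
  exact Prod.ext h.1 h.2

lemma mu_eq : mu = (volume : Measure (U × U)).map io := rfl

/-- the arc -/
noncomputable def arc (z : U × U) (t : ℝ) : T3 :=
  (z.1 + ((Real.goldenRatio * t : ℝ) : U), (t : U), z.2)

lemma coe_cont : Continuous (fun t : ℝ => (t : U)) := AddCircle.continuous_mk' 1

lemma arc_cont : Continuous (fun p : (U × U) × ℝ => arc p.1 p.2) := by
  unfold arc
  refine Continuous.prodMk ?_ (Continuous.prodMk ?_ ?_)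
  · exact (continuous_fst.comp continuous_fst).add
      (coe_cont.comp (continuous_const.mul continuous_snd))
  · exact coe_cont.comp continuous_snd
  · exact continuous_snd.comp continuous_fst

lemma arc_cont1 (z : U × U) : Continuous (arc z) :=
  arc_cont.comp (continuous_const.prodMk continuous_id)

/-- the partition -/
noncomputable def qq (w : T3) : U × U :=
  (w.1 - ((Real.goldenRatio * rep w.2.1 : ℝ) : U), w.2.2)

lemma qq_meas : Measurable qq := by
  unfold qq
  have h1 : Measurable (fun w : T3 => ((Real.goldenRatio * rep w.2.1 : ℝ) : U)) :=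
    coe_cont.measurable.comp ((rep_meas.comp (measurable_fst.comp measurable_snd)).const_mul _)
  exact (measurable_fst.sub h1).prodMk (measurable_snd.comp measurable_snd)

lemma qq_arc (z : U × U) {t : ℝ} (ht : t ∈ Ico (0 : ℝ) 1) : qq (arc z t) = z := by
  unfold qq arc
  simp only [rep_coe ht]
  rw [add_sub_cancel_right]

lemma eq_arc (w : T3) : w = arc (qq w) (rep w.2.1) := by
  unfold qq arc
  simp only [coe_rep]
  rw [sub_add_cancel]

/-- conditional measures -/
noncomputable def KK : ProbabilityTheory.Kernel (U × U) T3 :=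
  ((ProbabilityTheory.Kernel.id (α := U × U)).prod
    (ProbabilityTheory.Kernel.const (U × U) v01)).map fun p : (U × U) × ℝ => arc p.1 p.2

lemma KK_apply (z : U × U) : KK z = v01.map (arc z) := by
  unfold KK
  rw [ProbabilityTheory.Kernel.map_apply _ arc_cont.measurable,
    ProbabilityTheory.Kernel.prod_apply,
    ProbabilityTheory.Kernel.id_apply, ProbabilityTheory.Kernel.const_apply, Measure.dirac_prod,
    Measure.map_map arc_cont.measurable measurable_prodMk_left]
  rfl

instance : ProbabilityTheory.IsMarkovKernel KK :=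
  ProbabilityTheory.Kernel.IsMarkovKernel.map _ arc_cont.measurable

/-- the skew shift on the torus -/
lemma skew_mp : MeasurePreserving
    (fun p : U × U => (p.1, p.2 - ((Real.goldenRatio * rep p.1 : ℝ) : U)))
    ((volume : Measure U).prod volume) ((volume : Measure U).prod volume) := by
  apply MeasurePreserving.skew_product (f := fun a : U => a)
    (g := fun a c : U => c - ((Real.goldenRatio * rep a : ℝ) : U)) (MeasurePreserving.id _)
  · exact measurable_snd.sub (coe_cont.measurable.comp ((rep_meas.comp measurable_fst).const_mul _))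
  · refine Eventually.of_forall fun a => ?_
    exact map_sub_right_eq_self _ _

lemma skew2_mp : MeasurePreserving
    (fun p : ℝ × U => ((p.1 : U), p.2 + ((Real.goldenRatio * p.1 : ℝ) : U)))
    (v01.prod (volume : Measure U)) ((volume : Measure U).prod volume) := by
  apply MeasurePreserving.skew_product (f := fun t : ℝ => (t : U))
    (g := fun (t : ℝ) (c : U) => c + ((Real.goldenRatio * t : ℝ) : U)) coe_mp
  · exact measurable_snd.add (coe_cont.measurable.comp (measurable_fst.const_mul _))
  · refine Eventually.of_forall fun a => ?_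
    exact map_add_right_eq_self _ _

/-- the base measure -/
lemma map_q : mu.map qq = (volume : Measure U).map (fun c => (c, (0 : U))) := by
  haveI := vol_prob
  rw [mu_eq, Measure.map_map qq_meas io_cont.measurable]
  have h1 : qq ∘ io = (fun c : U => (c, (0 : U))) ∘ (Prod.snd ∘
      (fun p : U × U => (p.1, p.2 - ((Real.goldenRatio * rep p.1 : ℝ) : U))) ∘ Prod.swap) := by
    funext w
    rfl
  have h2 : MeasurePreserving (Prod.snd ∘
      (fun p : U × U => (p.1, p.2 - ((Real.goldenRatio * rep p.1 : ℝ) : U))) ∘ Prod.swap)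
      ((volume : Measure U).prod volume) volume :=
    measurePreserving_snd.comp (skew_mp.comp Measure.measurePreserving_swap)
  rw [h1, ← Measure.map_map (by fun_prop) h2.measurable]
  have h3 : (volume : Measure (U × U)) = (volume : Measure U).prod volume := rfl
  rw [h3, h2.map_eq]

lemma bind_eq : (mu.map qq).bind KK = mu := by
  have hm0 : Measurable (fun c : U => (c, (0 : U))) := by fun_prop
  ext A hA
  rw [Measure.bind_apply hA KK.measurable.aemeasurable, map_q,
    lintegral_map (KK.measurable_coe hA) hm0]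
  have hS : MeasurableSet {p : U × U | ((p.2, p.1, (0 : U)) : T3) ∈ A} := by
    have : Measurable (fun p : U × U => ((p.2, p.1, (0 : U)) : T3)) := by fun_prop
    exact this hA
  have h1 : ∀ c : U, KK (c, (0 : U)) A = v01 ((fun t : ℝ => (t, c)) ⁻¹'
      ((fun p : ℝ × U => ((p.1 : U), p.2 + ((Real.goldenRatio * p.1 : ℝ) : U))) ⁻¹'
        {p : U × U | ((p.2, p.1, (0 : U)) : T3) ∈ A})) := by
    intro c
    rw [KK_apply, Measure.map_apply (arc_cont1 _).measurable hA]
    rfl
  simp only [h1]
  rw [← Measure.prod_apply_symm (skew2_mp.measurable hS)]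
  rw [skew2_mp.measure_preimage hS.nullMeasurableSet]
  rw [mu_eq, Measure.map_apply io_cont.measurable hA]
  have h3 : (volume : Measure (U × U)) = (volume : Measure U).prod volume := rfl
  rw [h3]
  have h4 : {p : U × U | ((p.2, p.1, (0 : U)) : T3) ∈ A} = Prod.swap ⁻¹' (io ⁻¹' A) := rfl
  rw [h4]
  exact Measure.measurePreserving_swap.measure_preimage
    (io_cont.measurable hA).nullMeasurableSet

/-- values on the invariant torus -/
lemma ff_io (hL : TaskLift) (a b : U) : ff (a, b, 0) = (a + b, a, 0) := by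
  have h1 := hL.1 (rep a, rep b, 0)
  have h2 : pr (rep a, rep b, 0) = (a, b, 0) := by
    unfold pr
    simp only [coe_rep]
    rfl
  rw [h2] at h1
  rw [h1]
  have h3 : hh (rep a) 0 = 0 := by
    unfold hh s1 s2
    simp
  unfold pr FF
  simp only [h3, AddCircle.coe_add, coe_rep]
  rfl

lemma norm_coe_le (x : ℝ) : ‖(x : U)‖ ≤ |x| := by
  rw [UnitAddCircle.norm_eq]
  have := round_le x 0
  simpa using this

/-- contraction of backward orbits -/
lemma contract (hL : TaskLift) (hB : Bijective ff) : ∀ (n : ℕ) (a b : U) (r : ℝ) (x' y' : T3),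
    ff^[n] x' = (a, b, 0) →
    ff^[n] y' = (a + ((Real.goldenRatio * r : ℝ) : U), b + ((r : ℝ) : U), 0) →
    dist x' y' ≤ Real.goldenRatio * |r| * (Real.goldenRatio⁻¹) ^ n := by
  have hφ := Real.goldenRatio_pos
  have hφ1 := Real.one_lt_goldenRatio
  intro n
  induction n with
  | zero =>
    intro a b r x' y' hx hy
    simp only [iterate_zero, id_eq] at hx hy
    rw [hx, hy, pow_zero, mul_one, Prod.dist_eq, Prod.dist_eq]
    simp only [dist_self, dist_self_add_right]
    have h1 : ‖((Real.goldenRatio * r : ℝ) : U)‖ ≤ Real.goldenRatio * |r| := by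
      refine (norm_coe_le _).trans ?_
      rw [abs_mul, abs_of_pos hφ]
    have h2 : ‖((r : ℝ) : U)‖ ≤ Real.goldenRatio * |r| := by
      refine (norm_coe_le _).trans ?_
      nlinarith [abs_nonneg r]
    have h3 : 0 ≤ Real.goldenRatio * |r| := by positivity
    exact max_le h1 (max_le h2 h3)
  | succ n ih =>
    intro a b r x' y' hx hy
    rw [iterate_succ_apply'] at hx hy
    have h1 : ff^[n] x' = (b, a - b, 0) := by
      apply hB.1
      rw [hx, ff_io hL, add_sub_cancel]
    have hsq := Real.goldenRatio_sq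
    have hinv : r / Real.goldenRatio = Real.goldenRatio * r - r := inv_aux _ r hφ hsq
    have h2 : ff^[n] y' = (b + ((Real.goldenRatio * (r / Real.goldenRatio) : ℝ) : U),
        (a - b) + ((r / Real.goldenRatio : ℝ) : U), 0) := by
      apply hB.1
      rw [hy, ff_io hL, mul_div_cancel₀ r hφ.ne', hinv, AddCircle.coe_sub]
      refine Prod.ext ?_ rfl
      simp only
      abel
    have h3 := ih b (a - b) (r / Real.goldenRatio) x' y' h1 h2
    refine h3.trans (le_of_eq ?_)
    rw [abs_div, abs_of_pos hφ, pow_succ]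
    field_simp

lemma coe_eq_iff' {x y : ℝ} (h : (x : U) = (y : U)) : ∃ n : ℤ, x - y = n := by
  have h1 : ((x - y : ℝ) : U) = 0 := by rw [AddCircle.coe_sub, h, sub_self]
  obtain ⟨n, hn⟩ := (AddCircle.coe_eq_zero_iff (1 : ℝ)).1 h1
  refine ⟨n, ?_⟩
  rw [← hn]
  simp

lemma arc_inj (z : U × U) : ∀ t ∈ Icc (0 : ℝ) 1, ∀ t' ∈ Icc (0 : ℝ) 1, arc z t = arc z t' →
    t = t' := by
  intro t ht t' ht' h
  unfold arc at h
  simp only [Prod.mk.injEq, and_true, add_right_inj] at h
  obtain ⟨h1, h2⟩ := h
  obtain ⟨n, hn⟩ := coe_eq_iff' h2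
  obtain ⟨m, hm⟩ := coe_eq_iff' h1
  rw [← mul_sub, hn] at hm
  have hφ1 := Real.one_lt_goldenRatio
  have hφ2 := Real.goldenRatio_lt_two
  have hn1 : (n : ℝ) ≤ 1 := by rw [← hn]; linarith [ht.2, ht'.1]
  have hn2 : (-1 : ℝ) ≤ n := by rw [← hn]; linarith [ht.1, ht'.2]
  have hn1' : n ≤ 1 := by exact_mod_cast hn1
  have hn2' : -1 ≤ n := by exact_mod_cast hn2
  have hcases : n = -1 ∨ n = 0 ∨ n = 1 := by omega
  rcases hcases with h0 | h0 | h0
  · exfalso
    rw [h0] at hm
    push_cast at hm
    have a1 : (-2 : ℝ) < m := by linarith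
    have a2 : (m : ℝ) < -1 := by linarith
    have a1' : -2 < m := by exact_mod_cast a1
    have a2' : m < -1 := by exact_mod_cast a2
    omega
  · rw [h0] at hn
    push_cast at hn
    linarith
  · exfalso
    rw [h0] at hm
    push_cast at hm
    have a1 : (1 : ℝ) < m := by linarith
    have a2 : (m : ℝ) < 2 := by linarith
    have a1' : 1 < m := by exact_mod_cast a1
    have a2' : m < 2 := by exact_mod_cast a2
    omega

lemma arc_emb (z : U × U) : IsEmbedding (fun t : Ico (0 : ℝ) 1 => arc z t) := by
  have h1 : IsClosedEmbedding (fun t : Icc (0 : ℝ) 1 => arc z t) := by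
    apply Continuous.isClosedEmbedding
    · exact (arc_cont1 z).comp continuous_subtype_val
    · intro t t' h
      exact Subtype.ext (arc_inj z t t.2 t' t'.2 h)
  have h2 : IsEmbedding (Set.inclusion (Ico_subset_Icc_self : Ico (0 : ℝ) 1 ⊆ Icc 0 1)) :=
    IsEmbedding.inclusion _
  exact IsEmbedding.comp h1.isEmbedding h2

lemma pr_gamma (c : U) (t : ℝ) :
    pr (rep c + Real.goldenRatio * t, t, 0) = arc (c, 0) t := by
  unfold pr arc
  simp only [AddCircle.coe_add, coe_rep]
  rfl

theorem taskAC : TaskAC := by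
  intro hL hB
  refine ⟨U × U, inferInstance, inferInstance, qq, KK, qq_meas, inferInstance, bind_eq, ?_⟩
  have hemb : MeasurableEmbedding io := (io_cont.isClosedEmbedding io_inj).measurableEmbedding
  rw [mu_eq, hemb.ae_map_iff]
  refine Eventually.of_forall ?_
  rintro ⟨a, b⟩
  have hq : (qq (io (a, b))) = (a - ((Real.goldenRatio * rep b : ℝ) : U), (0 : U)) := rfl
  set c : U := a - ((Real.goldenRatio * rep b : ℝ) : U) with hc
  rw [hq]
  refine ⟨?_, ?_, fun t => (rep c + Real.goldenRatio * t, t, 0), 0, 1, one_pos, ?_, ?_, ?_, ?_, ?_⟩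
  · rw [KK_apply, Measure.map_apply (arc_cont1 _).measurable
      (qq_meas (measurableSet_singleton _)).compl]
    rw [Measure.restrict_apply' measurableSet_Ico]
    convert measure_empty (μ := volume)
    ext t
    simp only [mem_inter_iff, mem_preimage, mem_compl_iff, mem_singleton_iff, mem_empty_iff_false,
      iff_false, not_and]
    intro h1 ht
    exact h1 (qq_arc _ ht)
  · intro y hy
    have hy2 := eq_arc y
    rw [hy] at hy2
    refine ⟨Real.goldenRatio * |rep y.2.1 - rep b|, Real.goldenRatio⁻¹,
      inv_pos.2 Real.goldenRatio_pos, inv_lt_one_of_one_lt₀ Real.one_lt_goldenRatio, ?_⟩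
    intro n x' y' hx' hy'
    apply contract hL hB n a b (rep y.2.1 - rep b) x' y' hx'
    obtain ⟨t', ht'⟩ : ∃ t', t' = rep y.2.1 := ⟨_, rfl⟩
    rw [← ht'] at hy2 ⊢
    rw [hy', hy2]
    unfold arc
    refine Prod.ext ?_ (Prod.ext ?_ rfl)
    · simp only
      rw [hc, mul_sub, AddCircle.coe_sub]
      abel
    · simp only
      rw [AddCircle.coe_sub, coe_rep, add_sub_cancel]
  · fun_prop
  · intro t _
    have h1 : HasDerivAt (fun t : ℝ => ((rep c + Real.goldenRatio * t, t, (0 : ℝ)) : V3))
        (Real.goldenRatio * 1, 1, 0) t :=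
      (((hasDerivAt_id t).const_mul _).const_add _).prodMk
        ((hasDerivAt_id t).prodMk (hasDerivAt_const t 0))
    rw [h1.deriv]
    intro h2
    have := congrArg (fun p : V3 => p.2.1) h2
    norm_num at this
  · simp only [pr_gamma]
    exact arc_emb (c, 0)
  · ext w
    simp only [mem_preimage, mem_singleton_iff, mem_image, comp_apply, pr_gamma]
    constructor
    · intro hw
      refine ⟨rep w.2.1, rep_mem _, ?_⟩
      rw [← hw]
      exact (eq_arc w).symm
    · rintro ⟨t, ht, rfl⟩
      exact qq_arc _ ht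
  · rw [KK_apply]
    have h1 : (pr ∘ fun t : ℝ => ((rep c + Real.goldenRatio * t, t, (0 : ℝ)) : V3)) =
        arc (c, 0) := by
      funext t
      exact pr_gamma c t
    rw [h1]

end Pool.Agent.H165R4.CU.ACt

namespace Pool.Agent.H165R4.CU

theorem taskAC : TaskAC := ACt.taskAC

end Pool.Agent.H165R4.CU
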