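import Pool.Agent.H165R4.CU.Stmts

set_option autoImplicit false

open Set Filter Topology MeasureTheory Function

namespace Pool.Agent.H165R4.CU.Attr175

open Pool.Agent.H165R4.CU

theorem taskAttr : TaskAttr := by
  intro f N hf hbij hN hne hsub
  have hfN : f '' N ⊆ N := hsub.trans interior_subset
  have hcomp : ∀ n : ℕ, IsCompact (f^[n] '' N) := fun n =>
    hN.isCompact.image (hf.iterate n)
  have hstep : ∀ n : ℕ, f^[n + 1] '' N ⊆ f^[n] '' N := by
    intro n
    rw [Function.iterate_succ, Set.image_comp]
    exact Set.image_mono hfN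
  have himg : ∀ n : ℕ, f '' (f^[n] '' N) = f^[n + 1] '' N := by
    intro n
    rw [Function.iterate_succ', Set.image_comp]
  refine ⟨?_, ?_, ?_, N, hN, hsub, ?_, rfl⟩
  · exact (isClosed_iInter fun n => (hcomp n).isClosed).isCompact
  · exact IsCompact.nonempty_iInter_of_sequence_nonempty_isCompact_isClosed
      (fun n => f^[n] '' N) hstep (fun n => hne.image _) (hcomp 0) (fun n => (hcomp n).isClosed)
  · rw [Set.image_iInter hbij]
    simp only [himg]
    apply Set.Subset.antisymm
    · refine Set.subset_iInter fun n => ?_
      exact (Set.iInter_subset _ n).trans (hstep n)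
    · exact Set.subset_iInter fun n => Set.iInter_subset (fun n => f^[n] '' N) (n + 1)
  · refine (Set.iInter_subset (fun n => f^[n] '' N) 1).trans ?_
    rw [Function.iterate_one]
    exact hsub

end Pool.Agent.H165R4.CU.Attr175

namespace Pool.Agent.H165R4.CU

theorem taskAttr : TaskAttr := Attr175.taskAttr

end Pool.Agent.H165R4.CU
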