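import Pool.Agent.H165R4.CU.Stmts

set_option autoImplicit false

open Set Filter Topology MeasureTheory Function
open scoped ContDiff ENNReal Real

namespace Pool.Agent.H165R4.CU

theorem Bd_exp1 : (63 : ℝ) / 100 ≤ Real.exp (-(9 / 20)) := by
  have h1 : Real.exp (9 / 20) ≤ 100 / 63 := by
    have h2 : Real.exp (9 / 20) ^ 20 ≤ (100 / 63 : ℝ) ^ 20 := by
      have h3 : Real.exp (9 / 20) ^ 20 = Real.exp 1 ^ 9 := by
        rw [← Real.exp_nat_mul, ← Real.exp_nat_mul]
        norm_num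
      rw [h3]
      calc Real.exp 1 ^ 9 ≤ (2.7182818286 : ℝ) ^ 9 :=
            pow_le_pow_left₀ (Real.exp_pos 1).le Real.exp_one_lt_d9.le 9
        _ ≤ (100 / 63 : ℝ) ^ 20 := by norm_num
    exact le_of_pow_le_pow_left₀ (by norm_num) (by norm_num) h2
  rw [Real.exp_neg, le_inv_comm₀ (by norm_num) (Real.exp_pos _)]
  norm_num at h1 ⊢
  exact h1

theorem Bd_exp2 : Real.exp (1 / 2) ≤ (33 : ℝ) / 20 := by
  have h2 : Real.exp (1 / 2) ^ 2 ≤ (33 / 20 : ℝ) ^ 2 := by
    have h3 : Real.exp (1 / 2) ^ 2 = Real.exp 1 := by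
      rw [← Real.exp_nat_mul]
      norm_num
    rw [h3]
    have := Real.exp_one_lt_d9
    norm_num at this ⊢
    linarith
  exact le_of_pow_le_pow_left₀ (by norm_num) (by norm_num) h2

theorem Bd_lc (x : ℝ) : -(9 / 20) ≤ lc x ∧ lc x ≤ 1 / 2 := by
  unfold lc
  have h1 := Real.neg_one_le_cos (2 * π * x)
  have h2 := Real.cos_le_one (2 * π * x)
  constructor
  · nlinarith [sq_nonneg ((1 + Real.cos (2 * π * x)) / 2)]
  · nlinarith

theorem Bd_cc (x : ℝ) : 63 / 100 ≤ cc x ∧ cc x ≤ 33 / 20 := by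
  unfold cc
  obtain ⟨h1, h2⟩ := Bd_lc x
  exact ⟨Bd_exp1.trans (Real.exp_le_exp.2 h1), (Real.exp_le_exp.2 h2).trans Bd_exp2⟩

theorem Bd_cos (y : ℝ) : Real.cos (4 * π * y) = 2 * Real.cos (2 * π * y) ^ 2 - 1 := by
  rw [← Real.cos_two_mul]
  congr 1
  ring

theorem Bd_sin (y : ℝ) : Real.sin (4 * π * y) =
    2 * Real.sin (2 * π * y) * Real.cos (2 * π * y) := by
  rw [← Real.sin_two_mul]
  congr 1
  ring

theorem taskBd : TaskBd := by
  intro x y
  obtain ⟨hc1, hc2⟩ := Bd_cc x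
  refine ⟨hc1, hc2, ?_, ?_, ?_⟩
  · unfold aa
    rw [Bd_cos]
    have h1 := Real.neg_one_le_cos (2 * π * y)
    have h2 := Real.cos_le_one (2 * π * y)
    set u := Real.cos (2 * π * y)
    set c := cc x
    have k1 : 0 ≤ 55 / 100 - 35 / 100 * u ^ 2 - 195 / 1000 * u := by nlinarith
    have k2 : 0 ≤ 4 / 100 + 67 / 100 * u ^ 2 + 315 / 1000 * u := by
      nlinarith [sq_nonneg (u + 315 / 1340)]
    have l1 := mul_nonneg (sub_nonneg.2 hc2) k1
    have l2 := mul_nonneg (sub_nonneg.2 hc1) k2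
    nlinarith
  · unfold aa
    rw [Bd_cos]
    have h1 := Real.neg_one_le_cos (2 * π * y)
    have h2 := Real.cos_le_one (2 * π * y)
    set u := Real.cos (2 * π * y)
    set c := cc x
    have k1 : 0 ≤ 825 / 1000 + 35 / 100 * u ^ 2 + 195 / 1000 * u := by nlinarith
    have k2 : 0 ≤ 1335 / 1000 - 67 / 100 * u ^ 2 - 315 / 1000 * u := by
      nlinarith
    have l1 := mul_nonneg (sub_nonneg.2 hc2) k1
    have l2 := mul_nonneg (sub_nonneg.2 hc1) k2
    nlinarith
  · have hpi : π ≠ 0 := Real.pi_ne_zero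
    have h : gg x y = -(19 / 80) * (Real.sin (2 * π * x) * (1 + Real.cos (2 * π * x))) *
        (Real.sin (2 * π * y) * (1 + Real.cos (2 * π * y))) * cc x := by
      unfold gg s1
      rw [Bd_sin]
      field_simp
      ring
    have hb : ∀ X : ℝ, |Real.sin X * (1 + Real.cos X)| ≤ 2 := by
      intro X
      rw [abs_mul]
      have h1 := Real.abs_sin_le_one X
      have h2 : |1 + Real.cos X| ≤ 2 := by
        rw [abs_le]
        constructor <;> linarith [Real.neg_one_le_cos X, Real.cos_le_one X]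
      calc |Real.sin X| * |1 + Real.cos X| ≤ 1 * 2 :=
            mul_le_mul h1 h2 (abs_nonneg _) (by norm_num)
        _ = 2 := by norm_num
    rw [h, abs_mul, abs_mul, abs_mul]
    have h1 := hb (2 * π * x)
    have h2 := hb (2 * π * y)
    have h3 : |cc x| ≤ 33 / 20 := by
      rw [abs_le]
      constructor <;> linarith
    have h4 : |(-(19 / 80) : ℝ)| = 19 / 80 := by
      rw [abs_neg, abs_of_pos (by norm_num)]
    rw [h4]
    calc 19 / 80 * |Real.sin (2 * π * x) * (1 + Real.cos (2 * π * x))| *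
          |Real.sin (2 * π * y) * (1 + Real.cos (2 * π * y))| * |cc x|
        ≤ 19 / 80 * 2 * 2 * (33 / 20) := by gcongr
      _ ≤ 2 := by norm_num

end Pool.Agent.H165R4.CU
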