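import Pool.Agent.H165R4.CU.Stmts

set_option autoImplicit false

open Set Filter Topology MeasureTheory Function
open scoped ContDiff ENNReal Real

namespace Pool.Agent.H165R4.CU.BijN

open Pool.Agent.H165R4.CU

theorem hh_deriv (hD : TaskDer) (x y : ℝ) : HasDerivAt (hh x) (aa x y) y := by
  obtain ⟨D, h1, h2⟩ := hD (x, 0, y)
  have hc : HasDerivAt (fun t : ℝ => ((x, 0, t) : V3)) ((0, 0, 1) : V3) y :=
    (hasDerivAt_const y x).prodMk ((hasDerivAt_const y (0 : ℝ)).prodMk (hasDerivAt_id y))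
  have h3 := h1.comp_hasDerivAt y hc
  have h4 := ((ContinuousLinearMap.snd ℝ ℝ ℝ).comp
    (ContinuousLinearMap.snd ℝ ℝ (ℝ × ℝ))).hasFDerivAt.comp_hasDerivAt y h3
  have h5 : (((ContinuousLinearMap.snd ℝ ℝ ℝ).comp
    (ContinuousLinearMap.snd ℝ ℝ (ℝ × ℝ))) (D (0, 0, 1))) = aa x y := by
    rw [h2]
    simp
  rw [h5] at h4
  exact h4

theorem s1_bd (y : ℝ) : |s1 y| ≤ 1 := by
  have hpi := Real.pi_gt_three
  have h1 := Real.abs_sin_le_one (2 * π * y)
  have h2 := Real.abs_sin_le_one (4 * π * y)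
  unfold s1
  rw [abs_le] at *
  rw [div_le_iff₀ (by positivity), le_div_iff₀ (by positivity)]
  constructor <;> linarith [h1.1, h1.2, h2.1, h2.2]

theorem s2_bd (y : ℝ) : |s2 y| ≤ 1 := by
  have hpi := Real.pi_gt_three
  have h1 := Real.abs_sin_le_one (2 * π * y)
  have h2 := Real.abs_sin_le_one (4 * π * y)
  unfold s2
  rw [abs_le] at *
  rw [div_le_iff₀ (by positivity), le_div_iff₀ (by positivity)]
  constructor <;> linarith [h1.1, h1.2, h2.1, h2.2]

theorem hh_bd (hB : TaskBd) (x y : ℝ) : |hh x y - y| ≤ 2 := by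
  have h1 := (hB x y).1
  have h2 := (hB x y).2.1
  have h3 := s1_bd y
  have h4 := s2_bd y
  have h5 : |cc x - 1| ≤ 1 := by
    rw [abs_le]
    constructor <;> linarith
  have h6 : |(cc x - 1) * s1 y| ≤ 1 := by
    rw [abs_mul]
    calc |cc x - 1| * |s1 y| ≤ 1 * 1 := by gcongr
      _ = 1 := one_mul 1
  have h7 : hh x y - y = (cc x - 1) * s1 y + s2 y := by
    unfold hh
    ring
  rw [h7]
  exact (abs_add_le _ _).trans (by linarith)

theorem hh_strict (hD : TaskDer) (hB : TaskBd) (x : ℝ) : StrictMono (hh x) := by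
  apply strictMono_of_deriv_pos
  intro y
  rw [(hh_deriv hD x y).deriv]
  have := (hB x y).2.2.1
  linarith

theorem hh_surj (hD : TaskDer) (hB : TaskBd) (x : ℝ) : Surjective (hh x) := by
  have hc : Continuous (hh x) := by
    rw [continuous_iff_continuousAt]
    intro y
    exact (hh_deriv hD x y).continuousAt
  refine hc.surjective ?_ ?_
  · refine tendsto_atTop_mono (fun y => ?_) (tendsto_atTop_add_const_right atTop (-2 : ℝ) tendsto_id)
    have := (abs_le.1 (hh_bd hB x y)).1
    simp only [id]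
    linarith
  · refine tendsto_atBot_mono (fun y => ?_) (tendsto_atBot_add_const_right atBot (2 : ℝ) tendsto_id)
    have := (abs_le.1 (hh_bd hB x y)).2
    simp only [id]
    linarith

theorem hh_int (x y : ℝ) (m : ℤ) : hh x (y + m) = hh x y + m := by
  have h1 : Real.sin (2 * π * (y + m)) = Real.sin (2 * π * y) := by
    have : 2 * π * (y + m) = 2 * π * y + m * (2 * π) := by ring
    rw [this, Real.sin_add_int_mul_two_pi]
  have h2 : Real.sin (4 * π * (y + m)) = Real.sin (4 * π * y) := by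
    have : 4 * π * (y + m) = 4 * π * y + ((2 * m : ℤ) : ℝ) * (2 * π) := by push_cast; ring
    rw [this, Real.sin_add_int_mul_two_pi]
  unfold hh s1 s2
  rw [h1, h2]
  ring

theorem coe_eq (a b : ℝ) (h : (a : UnitAddCircle) = (b : UnitAddCircle)) :
    ∃ m : ℤ, a = b + m := by
  have h1 : ((a - b : ℝ) : UnitAddCircle) = 0 := by
    rw [AddCircle.coe_sub, h, sub_self]
  rw [AddCircle.coe_eq_zero_iff] at h1
  obtain ⟨n, hn⟩ := h1
  refine ⟨n, ?_⟩
  simp at hn
  linarith

theorem taskBij : TaskBij := by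
  intro hL hD hB
  refine ⟨⟨?_, ?_⟩, ?_⟩
  · rintro ⟨a, b, c⟩ ⟨a', b', c'⟩ h
    obtain ⟨A, rfl⟩ := QuotientAddGroup.mk_surjective a
    obtain ⟨B, rfl⟩ := QuotientAddGroup.mk_surjective b
    obtain ⟨C, rfl⟩ := QuotientAddGroup.mk_surjective c
    obtain ⟨A', rfl⟩ := QuotientAddGroup.mk_surjective a'
    obtain ⟨B', rfl⟩ := QuotientAddGroup.mk_surjective b'
    obtain ⟨C', rfl⟩ := QuotientAddGroup.mk_surjective c'
    have e1 : ∀ A B C : ℝ, ff ((A : UnitAddCircle), (B : UnitAddCircle), (C : UnitAddCircle)) =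
        (((A + B : ℝ) : UnitAddCircle), (A : UnitAddCircle), ((hh A C : ℝ) : UnitAddCircle)) :=
      fun A B C => hL.1 (A, B, C)
    have h0 : ff ((A : UnitAddCircle), (B : UnitAddCircle), (C : UnitAddCircle)) =
      ff ((A' : UnitAddCircle), (B' : UnitAddCircle), (C' : UnitAddCircle)) := h
    rw [e1, e1] at h0
    have h1 := congrArg (fun w : T3 => w.1) h0
    have h2 := congrArg (fun w : T3 => w.2.1) h0
    simp only at h1 h2
    have h3 : (B : UnitAddCircle) = (B' : UnitAddCircle) := by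
      rw [AddCircle.coe_add, AddCircle.coe_add, h2] at h1
      exact add_left_cancel h1
    have h4 : ff ((A : UnitAddCircle), (B : UnitAddCircle), (C' : UnitAddCircle)) =
        ff ((A' : UnitAddCircle), (B' : UnitAddCircle), (C' : UnitAddCircle)) := by
      rw [h2, h3]
    have h5 : ff ((A : UnitAddCircle), (B : UnitAddCircle), (C : UnitAddCircle)) =
        ff ((A : UnitAddCircle), (B : UnitAddCircle), (C' : UnitAddCircle)) := h.trans h4.symm
    rw [e1, e1] at h5
    have h6 := congrArg (fun w : T3 => w.2.2) h5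
    simp only at h6
    obtain ⟨m, hm⟩ := coe_eq _ _ h6
    rw [← hh_int] at hm
    have h7 := (hh_strict hD hB A).injective hm
    have h8 : (C : UnitAddCircle) = (C' : UnitAddCircle) := by
      rw [h7, AddCircle.coe_add]
      have : ((m : ℝ) : UnitAddCircle) = 0 := by
        rw [AddCircle.coe_eq_zero_iff]
        exact ⟨m, by simp⟩
      rw [this, add_zero]
    show ((A : UnitAddCircle), (B : UnitAddCircle), (C : UnitAddCircle)) =
      ((A' : UnitAddCircle), (B' : UnitAddCircle), (C' : UnitAddCircle))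
    rw [h2, h3, h8]
  · rintro ⟨a, b, c⟩
    obtain ⟨A, rfl⟩ := QuotientAddGroup.mk_surjective a
    obtain ⟨B, rfl⟩ := QuotientAddGroup.mk_surjective b
    obtain ⟨C, rfl⟩ := QuotientAddGroup.mk_surjective c
    obtain ⟨Y, hY⟩ := hh_surj hD hB B C
    refine ⟨pr (B, A - B, Y), ?_⟩
    rw [hL.1]
    show (((B + (A - B) : ℝ) : UnitAddCircle), (B : UnitAddCircle), ((hh B Y : ℝ) : UnitAddCircle)) =
      ((A : UnitAddCircle), (B : UnitAddCircle), (C : UnitAddCircle))
    rw [hY, add_sub_cancel]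
  · intro z
    obtain ⟨D, h1, h2⟩ := hD z
    rw [h1.fderiv]
    have ha : aa z.1 z.2.2 ≠ 0 := by
      have := (hB z.1 z.2.2).2.2.1
      linarith
    have hker : LinearMap.ker (D : V3 →ₗ[ℝ] V3) = ⊥ := by
      rw [LinearMap.ker_eq_bot']
      intro v hv
      have h3 : D v = 0 := hv
      rw [h2] at h3
      have e1 := congrArg (fun w : V3 => w.1) h3
      have e2 := congrArg (fun w : V3 => w.2.1) h3
      have e3 := congrArg (fun w : V3 => w.2.2) h3
      simp only [Prod.fst_zero, Prod.snd_zero] at e1 e2 e3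
      have e4 : v.2.1 = 0 := by linarith
      rw [e2, mul_zero, zero_add] at e3
      have e5 : v.2.2 = 0 := (mul_eq_zero.1 e3).resolve_left ha
      exact Prod.ext e2 (Prod.ext e4 e5)
    have hrange : LinearMap.range (D : V3 →ₗ[ℝ] V3) = ⊤ := by
      rw [LinearMap.range_eq_top]
      intro w
      refine ⟨(w.2.1, w.1 - w.2.1, (w.2.2 - gg z.1 z.2.2 * w.2.1) / aa z.1 z.2.2), ?_⟩
      show D _ = w
      rw [h2]
      refine Prod.ext ?_ (Prod.ext ?_ ?_)
      · show w.2.1 + (w.1 - w.2.1) = w.1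
        ring
      · rfl
      · show gg z.1 z.2.2 * w.2.1 + aa z.1 z.2.2 * ((w.2.2 - gg z.1 z.2.2 * w.2.1) / aa z.1 z.2.2) =
          w.2.2
        field_simp
        ring
    exact ⟨ContinuousLinearEquiv.ofBijective D hker hrange,
      ContinuousLinearEquiv.coe_ofBijective D hker hrange⟩

end Pool.Agent.H165R4.CU.BijN
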