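import Pool.Agent.H165R4.CU.Stmts
import Pool.Agent.H165R3.Birk

set_option autoImplicit false

open Set Filter Topology MeasureTheory Function

namespace Pool.Agent.H165R4.CU.Birk

open Pool.Agent.H165R4.CU

theorem taskBirk : TaskBirk := by
  intro hE hI
  obtain ⟨h1, h2, h3⟩ := hI
  haveI i1 : IsProbabilityMeasure (volume : Measure UnitAddCircle) := ⟨UnitAddCircle.measure_univ⟩
  haveI i2 : IsProbabilityMeasure (volume : Measure (UnitAddCircle × UnitAddCircle)) := by
    rw [Measure.volume_eq_prod]
    infer_instance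
  have hb := Pool.Agent.H165R3.birkhoff hE
    (fun w : UnitAddCircle × UnitAddCircle => lc (rep w.1)) h2 ⟨1, fun w => h3 _⟩
  rw [h1] at hb
  exact hb

end Pool.Agent.H165R4.CU.Birk
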