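import Pool.Agent.H165R4.CU.Stmts

set_option autoImplicit false

open Set Filter Topology MeasureTheory Function
open scoped ContDiff ENNReal Real

namespace Pool.Agent.H165R4.CU.Der

theorem hasDerivAt_lc (x : ℝ) :
    HasDerivAt lc (19 / 20 * (-π * Real.sin (2 * π * x) * (1 + Real.cos (2 * π * x)))) x := by
  have h1 : HasDerivAt (fun x : ℝ => 2 * π * x) (2 * π) x := by
    simpa using (hasDerivAt_id x).const_mul (2 * π)
  have h2 := h1.cos
  have h3 := (((h2.const_add 1).div_const 2).pow 2).const_mul (19 / 20)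
  have h4 := h3.const_add (-(9 / 20))
  have h5 : HasDerivAt lc _ x := h4
  refine h5.congr_deriv ?_
  simp only [Nat.cast_ofNat, Nat.add_one_sub_one, pow_one]
  ring

theorem hasDerivAt_cc (x : ℝ) :
    HasDerivAt cc (19 / 20 * (-π * Real.sin (2 * π * x) * (1 + Real.cos (2 * π * x))) * cc x) x := by
  have h1 := (hasDerivAt_lc x).exp
  have h2 : HasDerivAt cc _ x := h1
  refine h2.congr_deriv ?_
  unfold cc
  ring

theorem hasDerivAt_sin2 (c y : ℝ) :
    HasDerivAt (fun y : ℝ => Real.sin (c * π * y)) (Real.cos (c * π * y) * (c * π)) y := by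
  have h1 : HasDerivAt (fun x : ℝ => c * π * x) (c * π) y := by
    simpa using (hasDerivAt_id y).const_mul (c * π)
  exact h1.sin

theorem hasDerivAt_s1 (y : ℝ) :
    HasDerivAt s1 ((Real.cos (2 * π * y) + Real.cos (4 * π * y)) / 2) y := by
  have h1 := ((hasDerivAt_sin2 2 y).add ((hasDerivAt_sin2 4 y).div_const 2)).div_const (4 * π)
  have h2 : HasDerivAt s1 _ y := h1
  refine h2.congr_deriv ?_
  have hπ : (π : ℝ) ≠ 0 := Real.pi_ne_zero
  field_simp
  ring

theorem hasDerivAt_s2 (y : ℝ) :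
    HasDerivAt s2 (-(1 / 50 * ((Real.cos (2 * π * y) - Real.cos (4 * π * y)) / 2))) y := by
  have h1 := (((hasDerivAt_sin2 2 y).sub ((hasDerivAt_sin2 4 y).div_const 2)).const_mul
    (-(1 / 50))).div_const (4 * π)
  have h2 : HasDerivAt s2 _ y := h1
  refine h2.congr_deriv ?_
  have hπ : (π : ℝ) ≠ 0 := Real.pi_ne_zero
  field_simp
  ring

theorem taskDer : TaskDer := by
  intro z
  have hx : HasFDerivAt (fun z : V3 => z.1) (ContinuousLinearMap.fst ℝ ℝ (ℝ × ℝ)) z :=
    hasFDerivAt_fst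
  have h2 : HasFDerivAt (fun z : V3 => z.2) (ContinuousLinearMap.snd ℝ ℝ (ℝ × ℝ)) z :=
    hasFDerivAt_snd
  have hx2 : HasFDerivAt (fun z : V3 => z.2.1)
      ((ContinuousLinearMap.fst ℝ ℝ ℝ).comp (ContinuousLinearMap.snd ℝ ℝ (ℝ × ℝ))) z :=
    HasFDerivAt.comp z (g := fun w : ℝ × ℝ => w.1) hasFDerivAt_fst h2
  have hy : HasFDerivAt (fun z : V3 => z.2.2)
      ((ContinuousLinearMap.snd ℝ ℝ ℝ).comp (ContinuousLinearMap.snd ℝ ℝ (ℝ × ℝ))) z :=
    HasFDerivAt.comp z (g := fun w : ℝ × ℝ => w.2) hasFDerivAt_snd h2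
  have hc : HasFDerivAt (fun z : V3 => cc z.1) _ z := (hasDerivAt_cc z.1).comp_hasFDerivAt z hx
  have h1 := HasDerivAt.comp_hasFDerivAt (h₂ := s1) (f := fun z : V3 => z.2.2) z
    (hasDerivAt_s1 z.2.2) hy
  have h3 := HasDerivAt.comp_hasFDerivAt (h₂ := s2) (f := fun z : V3 => z.2.2) z
    (hasDerivAt_s2 z.2.2) hy
  have hh' := (hy.add ((hc.sub_const 1).mul h1)).add h3
  have hF := (hx.add hx2).prodMk (hx.prodMk hh')
  refine ⟨_, hF, ?_⟩
  intro v
  refine Prod.ext ?_ (Prod.ext ?_ ?_)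
  · simp
  · simp
  · simp only [ContinuousLinearMap.prod_apply, add_apply,
      smul_apply, ContinuousLinearMap.comp_apply, Function.comp_apply,
      ContinuousLinearMap.coe_fst', ContinuousLinearMap.coe_snd', smul_eq_mul]
    unfold gg aa
    ring

end Pool.Agent.H165R4.CU.Der
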