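import Pool.Agent.H165R4.CU.Stmts

/-!
# Task Diss of project H165-CU: a trapping region excludes an equivalent invariant finite measure
-/

set_option autoImplicit false

open Set Filter Topology MeasureTheory Function
open scoped ContDiff ENNReal Real

namespace Pool.Agent.H165R4.CU

theorem taskDiss : TaskDiss := by
  intro f N O hf hb hN hsub hO hne hON ν hfin hν1 hν2 hmp
  have hNc : IsCompact N := hN.isCompact
  have hfN : IsClosed (f '' N) := (hNc.image hf).isClosed
  have h1 : ν (f ⁻¹' (f '' N)) = ν (f '' N) :=
    hmp.measure_preimage hfN.measurableSet.nullMeasurableSet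
  rw [preimage_image_eq N hb.injective] at h1
  have h2 : ν (N \ f '' N) = 0 := by
    rw [measure_sdiff hsub hfN.measurableSet.nullMeasurableSet (measure_ne_top ν _), h1,
      tsub_self]
  have h3 : ν O = 0 := measure_mono_null hON h2
  have h4 : (volume : Measure T3) O = 0 := hν2 h3
  exact (hO.measure_pos volume hne).ne' h4

end Pool.Agent.H165R4.CU
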