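import Mathlib

/-!
# Project H165-CU (MP_40f8bf_an, Q2): definitions and tasks

A dissipative smooth diffeomorphism of the three-torus with a stable bundle, a two-dimensional
center-unstable bundle without dominated subsplitting and an SRB measure with one positive and one
negative exponent along the center-unstable bundle.
-/

set_option autoImplicit false

open Set Filter Topology MeasureTheory Function
open scoped ContDiff ENNReal Real

namespace Pool.Agent.H165R4.CU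

/-! ### General definitions -/

/-- The three-torus. -/
abbrev T3 : Type := UnitAddCircle × UnitAddCircle × UnitAddCircle

/-- The universal cover, also the tangent space at each point. -/
abbrev V3 : Type := ℝ × ℝ × ℝ

/-- The covering map. -/
def pr (z : V3) : T3 := ((z.1 : UnitAddCircle), (z.2.1 : UnitAddCircle), (z.2.2 : UnitAddCircle))

/-- `f` is a smooth diffeomorphism of the three-torus with lift `F`: a bijective smooth local
diffeomorphism. -/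
structure IsDiffeo (f : T3 → T3) (F : V3 → V3) : Prop where
  lift : ∀ z, f (pr z) = pr (F z)
  smooth : ContDiff ℝ ∞ F
  local_diffeo : ∀ z, (fderiv ℝ F z).IsInvertible
  bijective : Bijective f

/-- `f` preserves no finite measure equivalent to Lebesgue measure. -/
def IsDissipative (f : T3 → T3) : Prop :=
  ∀ ν : Measure T3, IsFiniteMeasure ν → ν ≪ volume → (volume : Measure T3) ≪ ν →
    ¬ MeasurePreserving f ν ν

/-- `Λ` is a compact invariant attracting set: the maximal invariant set of a trapping region. -/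
def IsAttractingSet (f : T3 → T3) (Λ : Set T3) : Prop :=
  IsCompact Λ ∧ Λ.Nonempty ∧ f '' Λ = Λ ∧
    ∃ N : Set T3, IsClosed N ∧ f '' N ⊆ interior N ∧ Λ ⊆ interior N ∧ Λ = ⋂ n : ℕ, f^[n] '' N

/-- `E` is a continuous field of `d`-dimensional subspaces over `S`. -/
def IsBundle (S : Set T3) (d : ℕ) (E : T3 → Submodule ℝ V3) : Prop :=
  ∀ x ∈ S, Module.finrank ℝ (E x) = d ∧
    ∃ v : Fin d → T3 → V3, (∀ i, ContinuousWithinAt (v i) S x) ∧
      LinearIndependent ℝ (fun i => v i x) ∧ ∀ᶠ y in 𝓝[S] x, ∀ i, v i y ∈ E y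

/-- `E` is invariant over `S` under the derivative of `f` (computed with the lift `F`). -/
def IsInv (f : T3 → T3) (F : V3 → V3) (S : Set T3) (E : T3 → Submodule ℝ V3) : Prop :=
  ∀ z, pr z ∈ S → (E (pr z)).map (fderiv ℝ F z : V3 →ₗ[ℝ] V3) = E (f (pr z))

/-- `TM = Es ⊕ Ec` over `Λ`: a stable bundle and a center-unstable bundle of dimension two. -/
structure HasStableCenterUnstable (f : T3 → T3) (F : V3 → V3) (Λ : Set T3)
    (Es Ec : T3 → Submodule ℝ V3) : Prop where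
  bundleS : IsBundle Λ 1 Es
  bundleC : IsBundle Λ 2 Ec
  compl : ∀ x ∈ Λ, IsCompl (Es x) (Ec x)
  invS : IsInv f F Λ Es
  invC : IsInv f F Λ Ec
  dominated : ∃ C lam : ℝ, 0 < C ∧ 0 < lam ∧ lam < 1 ∧
    ∀ z, pr z ∈ Λ → ∀ n : ℕ, ∀ v ∈ Es (pr z), ∀ w ∈ Ec (pr z), ‖v‖ = 1 → ‖w‖ = 1 →
      ‖fderiv ℝ (F^[n]) z v‖ ≤ C * lam ^ n ∧
      ‖fderiv ℝ (F^[n]) z v‖ ≤ C * lam ^ n * ‖fderiv ℝ (F^[n]) z w‖

/-- `Ec` has a dominated subsplitting over `Λ`: a continuous invariant splitting `Ec = E1 ⊕ E2` into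
line fields such that `E2` dominates `E1`. -/
def HasDominatedSubsplitting (f : T3 → T3) (F : V3 → V3) (Λ : Set T3)
    (Ec : T3 → Submodule ℝ V3) : Prop :=
  ∃ E1 E2 : T3 → Submodule ℝ V3, IsBundle Λ 1 E1 ∧ IsBundle Λ 1 E2 ∧
    (∀ x ∈ Λ, E1 x ⊓ E2 x = ⊥ ∧ E1 x ⊔ E2 x = Ec x) ∧
    IsInv f F Λ E1 ∧ IsInv f F Λ E2 ∧
    ∃ C lam : ℝ, 0 < C ∧ 0 < lam ∧ lam < 1 ∧
      ∀ z, pr z ∈ Λ → ∀ n : ℕ, ∀ v ∈ E1 (pr z), ∀ w ∈ E2 (pr z), ‖v‖ = 1 → ‖w‖ = 1 →
        ‖fderiv ℝ (F^[n]) z v‖ ≤ C * lam ^ n * ‖fderiv ℝ (F^[n]) z w‖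

/-- At `μ`-almost every point the two Lyapunov exponents of `Df` on the plane `Ec` are one positive
and one negative. -/
def HasExponents (F : V3 → V3) (μ : Measure T3) (Ec : T3 → Submodule ℝ V3) : Prop :=
  ∀ᵐ w ∂μ, ∀ z : V3, pr z = w → ∃ u ∈ Ec w, ∃ v ∈ Ec w, u ≠ 0 ∧ v ≠ 0 ∧
    ∃ χp χm : ℝ, 0 < χp ∧ χm < 0 ∧
      Tendsto (fun n : ℕ => (1 / (n : ℝ)) * Real.log ‖fderiv ℝ (F^[n]) z u‖) atTop (𝓝 χp) ∧
      Tendsto (fun n : ℕ => (1 / (n : ℝ)) * Real.log ‖fderiv ℝ (F^[n]) z v‖) atTop (𝓝 χm)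

/-- `y` lies in the unstable set of `x`: the distance of the points `f⁻ⁿ x` and `f⁻ⁿ y` tends to
zero exponentially fast. -/
def InUnstable (f : T3 → T3) (x y : T3) : Prop :=
  ∃ C θ : ℝ, 0 < θ ∧ θ < 1 ∧ ∀ (n : ℕ) (x' y' : T3), f^[n] x' = x → f^[n] y' = y →
    dist x' y' ≤ C * θ ^ n

/-- `μ` has absolutely continuous conditional measures on unstable manifolds: there is a measurable
partition (into the fibres of `q`) with conditional probability measures `K` whose atoms are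
embedded `C¹` arcs contained in unstable sets, and `K` is absolutely continuous with respect to arc
length. -/
def HasACConditionals (f : T3 → T3) (μ : Measure T3) : Prop :=
  ∃ (Z : Type) (_ : MeasurableSpace Z) (_ : StandardBorelSpace Z) (q : T3 → Z)
    (K : ProbabilityTheory.Kernel Z T3),
    Measurable q ∧ ProbabilityTheory.IsMarkovKernel K ∧ (μ.map q).bind K = μ ∧
    ∀ᵐ x ∂μ, K (q x) (q ⁻¹' {q x})ᶜ = 0 ∧ (∀ y, q y = q x → InUnstable f x y) ∧
      ∃ (γ : ℝ → V3) (a b : ℝ), a < b ∧ ContDiff ℝ 1 γ ∧ (∀ t ∈ Ico a b, deriv γ t ≠ 0) ∧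
        IsEmbedding (fun t : Ico a b => pr (γ t)) ∧ q ⁻¹' {q x} = (pr ∘ γ) '' Ico a b ∧
        K (q x) ≪ (volume.restrict (Ico a b)).map (pr ∘ γ)

/-! ### The map -/

/-- the logarithm of the fibre multiplier on the torus `y = 0` -/
noncomputable def lc (x : ℝ) : ℝ := -(9 / 20) + 19 / 20 * ((1 + Real.cos (2 * π * x)) / 2) ^ 2

noncomputable def cc (x : ℝ) : ℝ := Real.exp (lc x)

noncomputable def s1 (y : ℝ) : ℝ :=
  (Real.sin (2 * π * y) + Real.sin (4 * π * y) / 2) / (4 * π)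

noncomputable def s2 (y : ℝ) : ℝ :=
  -(1 / 50) * (Real.sin (2 * π * y) - Real.sin (4 * π * y) / 2) / (4 * π)

/-- the fibre maps -/
noncomputable def hh (x y : ℝ) : ℝ := y + (cc x - 1) * s1 y + s2 y

/-- the lift -/
noncomputable def FF (z : V3) : V3 := (z.1 + z.2.1, z.1, hh z.1 z.2.2)

/-- the representative in `[0, 1)` -/
noncomputable def rep (a : UnitAddCircle) : ℝ := (AddCircle.equivIco 1 0 a : ℝ)

/-- the map -/
noncomputable def ff (w : T3) : T3 := pr (FF (rep w.1, rep w.2.1, rep w.2.2))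

/-- the fibre derivative `∂h/∂y` -/
noncomputable def aa (x y : ℝ) : ℝ :=
  1 + (cc x - 1) * ((Real.cos (2 * π * y) + Real.cos (4 * π * y)) / 2) -
    1 / 50 * ((Real.cos (2 * π * y) - Real.cos (4 * π * y)) / 2)

/-- the derivative `∂h/∂x` -/
noncomputable def gg (x y : ℝ) : ℝ :=
  19 / 20 * (-π * Real.sin (2 * π * x) * (1 + Real.cos (2 * π * x))) * cc x * s1 y

/-- the trapping region -/
def NN : Set T3 := {w | ‖w.2.2‖ ≤ 9 / 20}

/-- the attracting set -/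
def LL : Set T3 := ⋂ n : ℕ, ff^[n] '' NN

/-- the base automorphism -/
def bb (w : UnitAddCircle × UnitAddCircle) : UnitAddCircle × UnitAddCircle := (w.1 + w.2, w.1)

/-- the SRB measure: Lebesgue measure on the invariant torus `y = 0` -/
noncomputable def mu : Measure T3 :=
  (volume : Measure (UnitAddCircle × UnitAddCircle)).map
    (fun w => ((w.1, w.2, (0 : UnitAddCircle)) : T3))

/-- the center-unstable bundle, spanned by `(φ, 1, 0)` and `(0, 0, 1)` -/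
noncomputable def Ec (_ : T3) : Submodule ℝ V3 :=
  Submodule.span ℝ {((Real.goldenRatio, 1, 0) : V3), ((0, 0, 1) : V3)}

/-- the stable bundle, spanned by `(ψ, 1, S)` -/
noncomputable def Es (S : T3 → ℝ) (w : T3) : Submodule ℝ V3 :=
  Submodule.span ℝ {((Real.goldenConj, 1, S w) : V3)}

/-! ### Tasks -/

/-- the lift and smoothness -/
def TaskLift : Prop := (∀ z, ff (pr z) = pr (FF z)) ∧ ContDiff ℝ ∞ FF ∧ Continuous ff

/-- the derivative -/
def TaskDer : Prop := ∀ z : V3, ∃ D : V3 →L[ℝ] V3, HasFDerivAt FF D z ∧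
  ∀ v : V3, D v = (v.1 + v.2.1, v.1, gg z.1 z.2.2 * v.1 + aa z.1 z.2.2 * v.2.2)

/-- bounds -/
def TaskBd : Prop := ∀ x y : ℝ, 63 / 100 ≤ cc x ∧ cc x ≤ 33 / 20 ∧ 5 / 8 ≤ aa x y ∧ aa x y ≤ 2 ∧
  |gg x y| ≤ 2

/-- the map is bijective with invertible derivative -/
def TaskBij : Prop := TaskLift → TaskDer → TaskBd →
  Bijective ff ∧ ∀ z, (fderiv ℝ FF z).IsInvertible

/-- the trapping region -/
def TaskTrap : Prop := TaskLift → TaskDer → TaskBd → IsClosed NN ∧ ff '' NN ⊆ interior NN ∧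
  ∃ O : Set T3, IsOpen O ∧ O.Nonempty ∧ O ⊆ NN \ ff '' NN

/-- maximal invariant sets of trapping regions -/
def TaskAttr : Prop := ∀ (f : T3 → T3) (N : Set T3), Continuous f → Bijective f → IsClosed N →
  N.Nonempty → f '' N ⊆ interior N → IsAttractingSet f (⋂ n : ℕ, f^[n] '' N)

/-- dissipativity from a trapping region -/
def TaskDiss : Prop := ∀ (f : T3 → T3) (N O : Set T3), Continuous f → Bijective f → IsClosed N →
  f '' N ⊆ N → IsOpen O → O.Nonempty → O ⊆ N \ f '' N → IsDissipative f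

/-- ergodicity of the base automorphism (Fourier series) -/
def TaskErg : Prop := Ergodic bb (volume : Measure (UnitAddCircle × UnitAddCircle))

/-- the measure -/
def TaskMu : Prop := TaskLift → TaskErg → IsProbabilityMeasure mu ∧ Ergodic ff mu ∧ mu LLᶜ = 0 ∧
  (∀ a b : UnitAddCircle, ((a, b, 0) : T3) ∈ LL)

/-- iterates over the invariant torus -/
def TaskIter : Prop := TaskLift → TaskDer → ∀ (x1 x2 : ℝ) (m : ℤ) (n : ℕ),
  ∃ D : V3 →L[ℝ] V3, HasFDerivAt (FF^[n]) D (x1, x2, (m : ℝ)) ∧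
    D (Real.goldenRatio, 1, 0) =
      (Real.goldenRatio ^ n * Real.goldenRatio, Real.goldenRatio ^ n, 0) ∧
    ∃ c : ℝ, 0 < c ∧ D (0, 0, 1) = (0, 0, c) ∧
      Real.log c = ∑ k ∈ Finset.range n,
        lc (rep ((bb^[k]) ((x1 : UnitAddCircle), (x2 : UnitAddCircle))).1)

/-- the average of the logarithm of the multiplier -/
def TaskInt : Prop :=
  ∫ w : UnitAddCircle × UnitAddCircle, lc (rep w.1) = -(3 / 32) ∧
  Measurable (fun w : UnitAddCircle × UnitAddCircle => lc (rep w.1)) ∧ ∀ x, |lc x| ≤ 1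

/-- Birkhoff sums along almost every orbit of the base -/
def BirkhoffLc : Prop :=
  ∀ᵐ w ∂(volume : Measure (UnitAddCircle × UnitAddCircle)),
    Tendsto (fun n : ℕ => (n : ℝ)⁻¹ * ∑ k ∈ Finset.range n, lc (rep ((bb^[k]) w).1)) atTop
      (𝓝 (-(3 / 32)))

/-- (there is a Birkhoff theorem in the library, `Pool.Agent.H165R3.birkhoff`) -/
def TaskBirk : Prop := TaskErg → TaskInt → BirkhoffLc

/-- the exponents -/
def TaskExp : Prop := TaskLift → TaskIter → BirkhoffLc → HasExponents FF mu Ec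

/-- the unstable arcs `t ↦ (s + φ t, t, 0)`, `0 ≤ t < 1` -/
def TaskAC : Prop := TaskLift → (Bijective ff) → HasACConditionals ff mu

/-- the stable direction: a convergent series -/
def TaskSt : Prop := TaskLift → TaskBd → ∃ S : T3 → ℝ, Continuous S ∧
  ∀ z : V3, Real.goldenConj * S (ff (pr z)) =
    gg z.1 z.2.2 * Real.goldenConj + aa z.1 z.2.2 * S (pr z)

/-- stable and center-unstable bundles -/
def TaskSplit : Prop := TaskLift → TaskDer → TaskBd → ∀ S : T3 → ℝ, Continuous S →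
  (∀ z : V3, Real.goldenConj * S (ff (pr z)) =
    gg z.1 z.2.2 * Real.goldenConj + aa z.1 z.2.2 * S (pr z)) →
  (∀ w, IsCompl (Es S w) (Ec w)) ∧ IsInv ff FF univ (Es S) ∧ IsInv ff FF univ Ec ∧
    IsBundle univ 1 (Es S) ∧ IsBundle univ 2 Ec

/-- domination of the stable bundle -/
def TaskDom : Prop := TaskLift → TaskDer → TaskBd → ∀ S : T3 → ℝ, Continuous S →
  (∀ z : V3, Real.goldenConj * S (ff (pr z)) =
    gg z.1 z.2.2 * Real.goldenConj + aa z.1 z.2.2 * S (pr z)) →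
  ∃ C lam : ℝ, 0 < C ∧ 0 < lam ∧ lam < 1 ∧
    ∀ z : V3, ∀ n : ℕ, ∀ v ∈ Es S (pr z), ∀ w ∈ Ec (pr z), ‖v‖ = 1 → ‖w‖ = 1 →
      ‖fderiv ℝ (FF^[n]) z v‖ ≤ C * lam ^ n ∧
      ‖fderiv ℝ (FF^[n]) z v‖ ≤ C * lam ^ n * ‖fderiv ℝ (FF^[n]) z w‖

/-- no dominated subsplitting, part 1: at almost every point of the invariant torus the dominated
line field is the fibre direction -/
def TaskND1 : Prop := TaskLift → TaskIter → BirkhoffLc → ∀ E1 E2 : T3 → Submodule ℝ V3,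
  (∀ a b : UnitAddCircle, E1 (a, b, 0) ⊓ E2 (a, b, 0) = ⊥ ∧
    E1 (a, b, 0) ⊔ E2 (a, b, 0) = Ec (a, b, 0) ∧ Module.finrank ℝ (E1 (a, b, 0)) = 1 ∧
    Module.finrank ℝ (E2 (a, b, 0)) = 1) →
  ∀ C lam : ℝ, 0 < C → 0 < lam → lam < 1 →
  (∀ x1 x2 : ℝ, ∀ n : ℕ, ∀ v ∈ E1 (pr (x1, x2, 0)), ∀ w ∈ E2 (pr (x1, x2, 0)), ‖v‖ = 1 →
    ‖w‖ = 1 → ‖fderiv ℝ (FF^[n]) (x1, x2, 0) v‖ ≤
      C * lam ^ n * ‖fderiv ℝ (FF^[n]) (x1, x2, 0) w‖) →
  ∀ᵐ w ∂(volume : Measure (UnitAddCircle × UnitAddCircle)),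
    ((0, 0, 1) : V3) ∈ E1 (w.1, w.2, 0)

/-- part 2: a continuous line field containing the fibre direction almost everywhere contains it
everywhere -/
def TaskND2 : Prop := ∀ (S : Set T3) (E1 : T3 → Submodule ℝ V3),
  (∀ a b : UnitAddCircle, ((a, b, 0) : T3) ∈ S) → IsBundle S 1 E1 →
  (∀ᵐ w ∂(volume : Measure (UnitAddCircle × UnitAddCircle)),
    ((0, 0, 1) : V3) ∈ E1 (w.1, w.2, 0)) → ((0, 0, 1) : V3) ∈ E1 (0, 0, 0)

/-- part 3: contradiction at the fixed point -/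
def TaskND3 : Prop := TaskLift → TaskIter → ∀ E1 E2 : Submodule ℝ V3,
  E1 ⊓ E2 = ⊥ → E1 ⊔ E2 = Ec 0 → Module.finrank ℝ E2 = 1 → ((0, 0, 1) : V3) ∈ E1 →
  Module.finrank ℝ E1 = 1 → E2.map (fderiv ℝ FF 0 : V3 →ₗ[ℝ] V3) = E2 →
  ∀ C lam : ℝ, 0 < C → 0 < lam → lam < 1 →
  ¬ ∀ n : ℕ, ∀ v ∈ E1, ∀ w ∈ E2, ‖v‖ = 1 → ‖w‖ = 1 →
    ‖fderiv ℝ (FF^[n]) 0 v‖ ≤ C * lam ^ n * ‖fderiv ℝ (FF^[n]) 0 w‖

end Pool.Agent.H165R4.CU
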