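import Mathlib
import Pool.Agent.H165R4.CU.Stmts

/-!
# Project H165-CU (MP_40f8bf_an, Q2): `TaskDom`

Domination of the stable bundle over the center-unstable bundle.
-/

set_option autoImplicit false

open Set Filter Topology MeasureTheory Function
open scoped ContDiff ENNReal Real

namespace Pool.Agent.H165R4.CU

namespace DomAux

lemma diffFF (hD : TaskDer) (z : V3) : DifferentiableAt ℝ FF z := by
  obtain ⟨D, hDz, _⟩ := hD z
  exact hDz.differentiableAt

lemma fderivFF (hD : TaskDer) (z v : V3) :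
    fderiv ℝ FF z v =
      (v.1 + v.2.1, v.1, gg z.1 z.2.2 * v.1 + aa z.1 z.2.2 * v.2.2) := by
  obtain ⟨D, hDz, h⟩ := hD z
  rw [hDz.fderiv]
  exact h v

lemma diffIter (hD : TaskDer) (n : ℕ) (z : V3) : DifferentiableAt ℝ (FF^[n]) z := by
  induction n generalizing z with
  | zero => simp
  | succ n ih =>
    rw [iterate_succ']
    exact (diffFF hD _).comp z (ih z)

lemma fderivIter (hD : TaskDer) (n : ℕ) (z v : V3) :
    fderiv ℝ (FF^[n + 1]) z v = fderiv ℝ FF (FF^[n] z) (fderiv ℝ (FF^[n]) z v) := by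
  rw [iterate_succ', fderiv_comp z (diffFF hD _) (diffIter hD n z)]
  rfl

lemma stab (hL : TaskLift) (hD : TaskDer) (S : T3 → ℝ)
    (hS : ∀ z : V3, Real.goldenConj * S (ff (pr z)) =
      gg z.1 z.2.2 * Real.goldenConj + aa z.1 z.2.2 * S (pr z)) (n : ℕ) (z : V3) :
    fderiv ℝ (FF^[n]) z (Real.goldenConj, 1, S (pr z)) =
      (Real.goldenConj ^ n * Real.goldenConj, Real.goldenConj ^ n,
        Real.goldenConj ^ n * S (pr (FF^[n] z))) := by
  induction n with
  | zero => simp [fderiv_id]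
  | succ n ih =>
    rw [fderivIter hD, ih, fderivFF hD]
    have h1 := hS (FF^[n] z)
    rw [hL.1 (FF^[n] z)] at h1
    have h2 := Real.goldenConj_sq
    rw [iterate_succ_apply']
    refine Prod.ext ?_ (Prod.ext ?_ ?_)
    · show Real.goldenConj ^ n * Real.goldenConj + Real.goldenConj ^ n =
        Real.goldenConj ^ (n + 1) * Real.goldenConj
      have : Real.goldenConj ^ (n + 1) * Real.goldenConj =
        Real.goldenConj ^ n * Real.goldenConj ^ 2 := by ring
      rw [this, h2]; ring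
    · show Real.goldenConj ^ n * Real.goldenConj = Real.goldenConj ^ (n + 1)
      ring
    · show gg (FF^[n] z).1 (FF^[n] z).2.2 * (Real.goldenConj ^ n * Real.goldenConj) +
        aa (FF^[n] z).1 (FF^[n] z).2.2 * (Real.goldenConj ^ n * S (pr (FF^[n] z))) =
        Real.goldenConj ^ (n + 1) * S (pr (FF (FF^[n] z)))
      have : Real.goldenConj ^ (n + 1) * S (pr (FF (FF^[n] z))) =
        Real.goldenConj ^ n * (Real.goldenConj * S (pr (FF (FF^[n] z)))) := by ring
      rw [this, h1]; ring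

lemma cu (hD : TaskDer) (hB : TaskBd) (n : ℕ) (z : V3) (a b : ℝ) :
    ∃ a' b' : ℝ, fderiv ℝ (FF^[n]) z (a * Real.goldenRatio, a, b) =
      (a' * Real.goldenRatio, a', b') ∧
      (5 / 8 : ℝ) ^ n * (8 * |a| + |b|) ≤ 8 * |a'| + |b'| := by
  induction n with
  | zero => exact ⟨a, b, by simp [fderiv_id], by simp⟩
  | succ n ih =>
    obtain ⟨a', b', h1, h2⟩ := ih
    set g := gg (FF^[n] z).1 (FF^[n] z).2.2 with hg
    set α := aa (FF^[n] z).1 (FF^[n] z).2.2 with hα
    refine ⟨a' * Real.goldenRatio, g * (a' * Real.goldenRatio) + α * b', ?_, ?_⟩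
    · rw [fderivIter hD, h1, fderivFF hD]
      refine Prod.ext ?_ (Prod.ext ?_ ?_)
      · show a' * Real.goldenRatio + a' = a' * Real.goldenRatio * Real.goldenRatio
        have h3 := Real.goldenRatio_sq
        have : a' * Real.goldenRatio * Real.goldenRatio = a' * Real.goldenRatio ^ 2 := by ring
        rw [this, h3]; ring
      · rfl
      · rfl
    · obtain ⟨_, _, h5, _, h7⟩ := hB (FF^[n] z).1 (FF^[n] z).2.2
      rw [← hα] at h5
      rw [← hg] at h7
      have hφ := Real.one_lt_goldenRatio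
      have e1 : |a' * Real.goldenRatio| = |a'| * Real.goldenRatio := by
        rw [abs_mul, abs_of_pos Real.goldenRatio_pos]
      have e2 : |α * b'| ≤ |g * (a' * Real.goldenRatio) + α * b'| + |g * (a' * Real.goldenRatio)| := by
        have := abs_sub (g * (a' * Real.goldenRatio) + α * b') (g * (a' * Real.goldenRatio))
        simpa using this
      have e3 : |g * (a' * Real.goldenRatio)| ≤ 2 * (|a'| * Real.goldenRatio) := by
        rw [abs_mul, e1]
        exact mul_le_mul_of_nonneg_right h7 (by positivity)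
      have e4 : 5 / 8 * |b'| ≤ |α * b'| := by
        rw [abs_mul]
        exact mul_le_mul_of_nonneg_right (h5.trans (le_abs_self α)) (abs_nonneg _)
      have e5 : |a'| ≤ |a'| * Real.goldenRatio := by
        nlinarith [abs_nonneg a']
      have e6 : (5 / 8 : ℝ) ^ (n + 1) * (8 * |a| + |b|) ≤ 5 / 8 * (8 * |a'| + |b'|) := by
        have : (5 / 8 : ℝ) ^ (n + 1) * (8 * |a| + |b|) =
          5 / 8 * ((5 / 8 : ℝ) ^ n * (8 * |a| + |b|)) := by ring
        rw [this]
        exact mul_le_mul_of_nonneg_left h2 (by norm_num)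
      rw [e1]
      have h8 := abs_nonneg a'
      linarith

lemma norm_triple (x y z : ℝ) : ‖((x, y, z) : V3)‖ = max |x| (max |y| |z|) := rfl

end DomAux

open DomAux in
theorem taskDom : TaskDom := by
  intro hL hD hB S hSc hS
  obtain ⟨M0, hM0⟩ := (isCompact_univ (X := T3)).exists_bound_of_continuousOn hSc.continuousOn
  set M : ℝ := max 1 M0 with hM
  have hM1 : 1 ≤ M := le_max_left _ _
  have hMS : ∀ w, |S w| ≤ M := fun w => (hM0 w (mem_univ w)).trans (le_max_right _ _)
  have hψneg := Real.goldenConj_neg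
  have hψsq := Real.goldenConj_sq
  have hψ1 : -Real.goldenConj < 5 / 8 := by
    by_contra h
    push Not at h
    nlinarith
  set r : ℝ := |Real.goldenConj| with hr
  have hr0 : 0 < r := abs_pos.mpr hψneg.ne
  have hr1 : r < 5 / 8 := by rw [hr, abs_of_neg hψneg]; exact hψ1
  refine ⟨9 * M, r * (8 / 5), by positivity, by positivity, by linarith, ?_⟩
  intro z n v hv w hw hv1 hw1
  -- the stable vector
  obtain ⟨c, rfl⟩ := Submodule.mem_span_singleton.1 hv
  have hc : |c| ≤ 1 := by
    have h1 : |c| * ‖((Real.goldenConj, 1, S (pr z)) : V3)‖ = 1 := by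
      rw [← Real.norm_eq_abs, ← norm_smul]; exact hv1
    have h2 : (1 : ℝ) ≤ ‖((Real.goldenConj, 1, S (pr z)) : V3)‖ := by
      rw [norm_triple]
      exact le_max_of_le_right (le_max_of_le_left (by simp))
    nlinarith [abs_nonneg c]
  have hA : ‖fderiv ℝ (FF^[n]) z (c • (Real.goldenConj, 1, S (pr z)))‖ ≤ M * r ^ n := by
    rw [map_smul, norm_smul, stab hL hD S hS n z, norm_triple]
    have hr1' : r ≤ 1 := by linarith
    have h1 : |Real.goldenConj ^ n * Real.goldenConj| ≤ M * r ^ n := by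
      rw [abs_mul, abs_pow, ← hr]
      have : r ^ n * r ≤ r ^ n * 1 := mul_le_mul_of_nonneg_left hr1' (by positivity)
      have h3 : 1 * r ^ n ≤ M * r ^ n := mul_le_mul_of_nonneg_right hM1 (by positivity)
      linarith
    have h2 : |Real.goldenConj ^ n| ≤ M * r ^ n := by
      rw [abs_pow, ← hr]
      have h3 : 1 * r ^ n ≤ M * r ^ n := mul_le_mul_of_nonneg_right hM1 (by positivity)
      linarith
    have h3 : |Real.goldenConj ^ n * S (pr (FF^[n] z))| ≤ M * r ^ n := by
      rw [abs_mul, abs_pow, ← hr]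
      have h3 : r ^ n * |S (pr (FF^[n] z))| ≤ r ^ n * M :=
        mul_le_mul_of_nonneg_left (hMS _) (by positivity)
      linarith
    have h4 : max |Real.goldenConj ^ n * Real.goldenConj|
      (max |Real.goldenConj ^ n| |Real.goldenConj ^ n * S (pr (FF^[n] z))|) ≤ M * r ^ n :=
      max_le h1 (max_le h2 h3)
    have h5 : ‖c‖ ≤ 1 := hc
    have h6 : 0 ≤ max |Real.goldenConj ^ n * Real.goldenConj|
      (max |Real.goldenConj ^ n| |Real.goldenConj ^ n * S (pr (FF^[n] z))|) :=
      le_max_of_le_left (abs_nonneg _)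
    calc ‖c‖ * _ ≤ 1 * (M * r ^ n) := mul_le_mul h5 h4 h6 zero_le_one
      _ = M * r ^ n := one_mul _
  -- the center-unstable vector
  obtain ⟨a, b, rfl⟩ := Submodule.mem_span_pair.1 hw
  have hw' : (a • ((Real.goldenRatio, 1, 0) : V3) + b • ((0, 0, 1) : V3)) =
      (a * Real.goldenRatio, a, b) := by
    ext <;> simp
  rw [hw'] at hw1 ⊢
  obtain ⟨a', b', h1, h2⟩ := cu hD hB n z a b
  have hN : 1 ≤ 8 * |a| + |b| := by
    rw [← hw1, norm_triple, abs_mul, abs_of_pos Real.goldenRatio_pos]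
    have h3 := Real.goldenRatio_lt_two
    have h4 := abs_nonneg a
    have h5 := abs_nonneg b
    refine max_le ?_ (max_le ?_ ?_)
    · nlinarith
    · linarith
    · linarith
  have hN' : 8 * |a'| + |b'| ≤ 9 * ‖((a' * Real.goldenRatio, a', b') : V3)‖ := by
    rw [norm_triple]
    have h3 : |a'| ≤ max |a' * Real.goldenRatio| (max |a'| |b'|) :=
      le_max_of_le_right (le_max_left _ _)
    have h4 : |b'| ≤ max |a' * Real.goldenRatio| (max |a'| |b'|) :=
      le_max_of_le_right (le_max_right _ _)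
    linarith
  have hlow : (5 / 8 : ℝ) ^ n ≤ 9 * ‖fderiv ℝ (FF^[n]) z (a * Real.goldenRatio, a, b)‖ := by
    rw [h1]
    refine le_trans ?_ (h2.trans hN')
    have : (5 / 8 : ℝ) ^ n * 1 ≤ (5 / 8 : ℝ) ^ n * (8 * |a| + |b|) :=
      mul_le_mul_of_nonneg_left hN (by positivity)
    linarith
  refine ⟨hA.trans ?_, hA.trans ?_⟩
  · have h3 : r ^ n ≤ (r * (8 / 5)) ^ n := by
      apply pow_le_pow_left₀ hr0.le
      linarith
    have h4 : 0 < (r * (8 / 5)) ^ n := by positivity
    calc M * r ^ n ≤ M * (r * (8 / 5)) ^ n := mul_le_mul_of_nonneg_left h3 (by linarith)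
      _ ≤ 9 * M * (r * (8 / 5)) ^ n := by nlinarith [mul_pos (by linarith : 0 < M) h4]
  · have h3 : r ^ n = (r * (8 / 5)) ^ n * (5 / 8 : ℝ) ^ n := by
      rw [← mul_pow]; congr 1; ring
    rw [h3]
    have h4 : 0 ≤ M * (r * (8 / 5)) ^ n := by positivity
    calc M * ((r * (8 / 5)) ^ n * (5 / 8 : ℝ) ^ n) = M * (r * (8 / 5)) ^ n * (5 / 8 : ℝ) ^ n := by ring
      _ ≤ M * (r * (8 / 5)) ^ n * (9 * ‖fderiv ℝ (FF^[n]) z (a * Real.goldenRatio, a, b)‖) :=
        mul_le_mul_of_nonneg_left hlow h4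
      _ = 9 * M * (r * (8 / 5)) ^ n * ‖fderiv ℝ (FF^[n]) z (a * Real.goldenRatio, a, b)‖ := by ring

end Pool.Agent.H165R4.CU

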