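import Pool.Agent.H165R4.CU.Stmts

/-!
Ergodicity of the Fibonacci automorphism of the two-torus, by Fourier series.
-/

set_option autoImplicit false

open Set Filter Topology MeasureTheory Function UnitAddTorus
open scoped ENNReal Real

namespace Pool.Agent.H165R4.CU.ErgAux

section fourier

attribute [local instance] instMeasureSpaceUnitAddCircle

local instance : Measure.IsAddHaarMeasure (volume : Measure UnitAddCircle) :=
  inferInstanceAs (Measure.IsAddHaarMeasure AddCircle.haarAddCircle)

local instance : IsProbabilityMeasure (volume : Measure UnitAddCircle) :=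
  inferInstanceAs (IsProbabilityMeasure AddCircle.haarAddCircle)

/-- the automorphism on `Fin 2 → 𝕋` -/
def TT : UnitAddTorus (Fin 2) →+ UnitAddTorus (Fin 2) where
  toFun x := ![x 0 + x 1, x 0]
  map_zero' := by
    ext i; fin_cases i <;> simp
  map_add' := by
    intro x y
    ext i; fin_cases i
    · simp; abel
    · simp

lemma TT_cont : Continuous TT := by
  show Continuous (fun x : Fin 2 → UnitAddCircle => ![x 0 + x 1, x 0])
  refine continuous_pi (fun i => ?_)
  fin_cases i
  · exact (continuous_apply 0).add (continuous_apply 1)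
  · exact continuous_apply 0

lemma TT_surj : Surjective TT := by
  intro y
  refine ⟨![y 1, y 0 - y 1], ?_⟩
  show (![y 1 + (y 0 - y 1), y 1] : Fin 2 → UnitAddCircle) = y
  ext i; fin_cases i
  · simp
  · simp

lemma TT_mp : MeasurePreserving TT (volume : Measure (UnitAddTorus (Fin 2))) volume :=
  AddMonoidHom.measurePreserving TT_cont TT_surj rfl

/-- the dual automorphism -/
def AA (n : Fin 2 → ℤ) : Fin 2 → ℤ := ![n 0 + n 1, n 0]

lemma mF_TT (n : Fin 2 → ℤ) (x : UnitAddTorus (Fin 2)) :
    mFourier n (TT x) = mFourier (AA n) x := by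
  show ∏ i : Fin 2, fourier (n i) ((![x 0 + x 1, x 0] : Fin 2 → UnitAddCircle) i) =
    ∏ i : Fin 2, fourier ((![n 0 + n 1, n 0] : Fin 2 → ℤ) i) (x i)
  rw [Fin.prod_univ_two, Fin.prod_univ_two]
  simp only [Matrix.cons_val_zero, Matrix.cons_val_one]
  rw [fourier_add]
  have h : fourier (n 0) (x 0 + x 1) = fourier (n 0) (x 0) * fourier (n 0) (x 1) := by
    simp [fourier_apply, smul_add, AddCircle.toCircle_add]
  rw [h]
  ring

lemma AA_neg (n : Fin 2 → ℤ) : AA (-n) = -AA n := by
  unfold AA
  ext i; fin_cases i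
  · simp; ring
  · simp

/-- the Fourier coefficients of an invariant function are invariant -/
lemma coeff_inv (f : UnitAddTorus (Fin 2) → ℂ) (hf : ∀ x, f (TT x) = f x)
    (hm : Measurable f) (n : Fin 2 → ℤ) :
    mFourierCoeff f (AA n) = mFourierCoeff f n := by
  unfold mFourierCoeff
  have h1 : ∀ t, mFourier (-AA n) t • f t = (fun s => mFourier (-n) s • f s) (TT t) := by
    intro t
    simp only
    rw [mF_TT, AA_neg, hf]
  simp_rw [h1]
  have h2 := TT_mp.map_eq
  have hsm : AEStronglyMeasurable (fun s => mFourier (-n) s • f s)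
      (Measure.map TT (volume : Measure (UnitAddTorus (Fin 2)))) := by
    have h3 : Measurable (fun s => mFourier (-n) s * f s) :=
      (mFourier (-n)).continuous.measurable.mul hm
    exact h3.aestronglyMeasurable
  have h4 := integral_map TT_mp.measurable.aemeasurable hsm
  rw [h2] at h4
  exact h4.symm

/-- orbits of the dual automorphism -/
noncomputable def ell (n : Fin 2 → ℤ) : ℝ := n 0 * Real.goldenRatio + n 1

lemma ell_AA (n : Fin 2 → ℤ) : ell (AA n) = Real.goldenRatio * ell n := by
  unfold ell AA
  simp only [Matrix.cons_val_zero, Matrix.cons_val_one]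
  have := Real.goldenRatio_sq
  push_cast
  linear_combination (-(n 0 : ℝ)) * this

lemma ell_iter (n : Fin 2 → ℤ) (k : ℕ) :
    ell (AA^[k] n) = Real.goldenRatio ^ k * ell n := by
  induction k with
  | zero => simp
  | succ k ih => rw [iterate_succ_apply', ell_AA, ih, pow_succ]; ring

lemma ell_ne (n : Fin 2 → ℤ) (hn : n ≠ 0) : ell n ≠ 0 := by
  intro h
  unfold ell at h
  by_cases h0 : n 0 = 0
  · rw [h0] at h
    simp at h
    apply hn
    ext i; fin_cases i
    · simpa using h0
    · simpa using h
  · apply Real.goldenRatio_irrational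
    refine ⟨-(n 1 : ℚ) / (n 0 : ℚ), ?_⟩
    push_cast
    have h0' : (n 0 : ℝ) ≠ 0 := by exact_mod_cast h0
    rw [div_eq_iff h0']
    linarith

lemma orbit_inj (n : Fin 2 → ℤ) (hn : n ≠ 0) : Injective (fun k : ℕ => AA^[k] n) := by
  intro j k hjk
  have h1 : ell (AA^[j] n) = ell (AA^[k] n) := by
    simp only at hjk
    rw [hjk]
  rw [ell_iter, ell_iter] at h1
  have h2 := mul_right_cancel₀ (ell_ne n hn) h1
  exact (pow_right_injective₀ Real.goldenRatio_pos Real.one_lt_goldenRatio.ne') h2

lemma preErg : PreErgodic TT (volume : Measure (UnitAddTorus (Fin 2))) := by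
  constructor
  intro s hs hinv
  set f : UnitAddTorus (Fin 2) → ℂ := s.indicator (fun _ => (1 : ℂ)) with hf
  have hfm : Measurable f := measurable_const.indicator hs
  have hfi : ∀ x, f (TT x) = f x := by
    intro x
    have : TT x ∈ s ↔ x ∈ s := by
      nth_rw 2 [← hinv]
      rfl
    by_cases hx : x ∈ s
    · rw [hf, indicator_of_mem hx, indicator_of_mem (this.2 hx)]
    · rw [hf, indicator_of_notMem hx, indicator_of_notMem (fun h => hx (this.1 h))]
  have hmem : MemLp f 2 (volume : Measure (UnitAddTorus (Fin 2))) :=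
    memLp_indicator_const 2 hs 1 (Or.inr (measure_ne_top _ _))
  set g := hmem.toLp f with hg
  have hgf : g =ᵐ[volume] f := hmem.coeFn_toLp
  have hcoef : ∀ n, mFourierCoeff g n = mFourierCoeff f n := by
    intro n
    unfold mFourierCoeff
    apply integral_congr_ae
    filter_upwards [hgf] with x hx
    rw [hx]
  have hz : ∀ n : Fin 2 → ℤ, n ≠ 0 → mFourierCoeff f n = 0 := by
    intro n hn
    have hsum := (hasSum_sq_mFourierCoeff g).summable.comp_injective (orbit_inj n hn)
    have hconst : ∀ k : ℕ, mFourierCoeff f (AA^[k] n) = mFourierCoeff f n := by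
      intro k
      induction k with
      | zero => rfl
      | succ k ih => rw [iterate_succ_apply', coeff_inv f hfi hfm, ih]
    have h2 : ((fun i => ‖mFourierCoeff g i‖ ^ 2) ∘ fun k : ℕ => AA^[k] n) =
        fun _ => ‖mFourierCoeff f n‖ ^ 2 := by
      ext k
      simp only [comp_apply]
      rw [hcoef, hconst]
    rw [h2] at hsum
    have h3 := (summable_const_iff _).1 hsum
    simpa using h3
  have hser := hasSum_mFourier_series_L2 g
  have hone : g = mFourierCoeff f 0 • mFourierLp 2 (0 : Fin 2 → ℤ) := by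
    refine hser.unique ?_
    rw [← hcoef]
    refine hasSum_single (0 : Fin 2 → ℤ) (fun n hn => ?_)
    rw [hcoef, hz n hn, zero_smul]
  have hae : f =ᵐ[volume] fun _ => mFourierCoeff f 0 := by
    have h1 : (mFourierCoeff f 0 • mFourierLp 2 (0 : Fin 2 → ℤ) :
        Lp ℂ 2 (volume : Measure (UnitAddTorus (Fin 2)))) =ᵐ[volume]
          fun x => mFourierCoeff f 0 * mFourier (0 : Fin 2 → ℤ) x := by
      filter_upwards [Lp.coeFn_smul (mFourierCoeff f 0) (mFourierLp 2 (0 : Fin 2 → ℤ)),
        coeFn_mFourierLp 2 (0 : Fin 2 → ℤ)] with x h1 h2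
      rw [h1, Pi.smul_apply, h2, smul_eq_mul]
    rw [← hone] at h1
    filter_upwards [hgf, h1] with x hx1 hx2
    rw [← hx1, hx2, mFourier_zero]
    simp
  rw [eventuallyConst_set]
  by_cases h1 : mFourierCoeff f 0 = 1
  · left
    filter_upwards [hae] with x hx
    by_contra hxs
    rw [h1] at hx
    simp [hf, hxs] at hx
  · right
    filter_upwards [hae] with x hx hxs
    apply h1
    rw [← hx]
    simp [hf, hxs]

theorem erg1 : Ergodic bb
    ((AddCircle.haarAddCircle (T := (1 : ℝ))).prod (AddCircle.haarAddCircle (T := (1 : ℝ)))) := by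
  have h1 : Ergodic TT (volume : Measure (UnitAddTorus (Fin 2))) :=
    { toMeasurePreserving := TT_mp, toPreErgodic := preErg }
  have h2 := ((volume_preserving_finTwoArrow UnitAddCircle).ergodic_conjugate_iff
    (f := TT)).2 h1
  exact h2

end fourier

end Pool.Agent.H165R4.CU.ErgAux

namespace Pool.Agent.H165R4.CU

theorem taskErg : TaskErg := by
  have h : (volume : Measure UnitAddCircle) = AddCircle.haarAddCircle := by
    rw [AddCircle.volume_eq_smul_haarAddCircle]
    simp
  unfold TaskErg
  rw [Measure.volume_eq_prod, h]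
  exact ErgAux.erg1

end Pool.Agent.H165R4.CU
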