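import Pool.Agent.H165R4.CU.Stmts

/-!
# Project H165-CU: ergodicity of the base automorphism
-/

set_option autoImplicit false

open Set Filter Topology MeasureTheory Function
open scoped ContDiff ENNReal Real symmDiff

namespace Pool.Agent.H165R4.CU.Ergb

lemma bb_cont : Continuous bb := by unfold bb; fun_prop

lemma bb_mp : MeasurePreserving bb (volume : Measure (UnitAddCircle × UnitAddCircle)) volume := by
  have h := measurePreserving_prod_add_swap (volume : Measure UnitAddCircle)
    (volume : Measure UnitAddCircle)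
  have h2 : MeasurePreserving (Prod.swap : UnitAddCircle × UnitAddCircle → _)
      ((volume : Measure UnitAddCircle).prod volume) (volume.prod volume) :=
    Measure.measurePreserving_swap
  have h3 := (h2.comp h).comp h2
  have e : (Prod.swap ∘ (fun z : UnitAddCircle × UnitAddCircle => (z.2, z.2 + z.1))) ∘ Prod.swap =
      bb := by
    funext z
    simp [bb]
  rw [e] at h3
  exact h3

lemma bb_add (x y : UnitAddCircle × UnitAddCircle) : bb (x + y) = bb x + bb y := by
  unfold bb
  ext
  · simp; abel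
  · simp

lemma bb_iter_add (n : ℕ) (x y : UnitAddCircle × UnitAddCircle) :
    bb^[n] (x + y) = bb^[n] x + bb^[n] y := by
  induction n generalizing x y with
  | zero => rfl
  | succ n ih => rw [iterate_succ_apply, iterate_succ_apply, iterate_succ_apply, bb_add, ih]

noncomputable def L (t : ℝ) : UnitAddCircle × UnitAddCircle :=
  (((Real.goldenConj * t : ℝ) : UnitAddCircle), (t : UnitAddCircle))

lemma L_cont : Continuous L := by
  unfold L
  exact ((AddCircle.continuous_mk' 1).comp (by fun_prop)).prodMk (AddCircle.continuous_mk' 1)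

lemma bb_L (t : ℝ) : bb (L t) = L (Real.goldenConj * t) := by
  have h := Real.goldenConj_sq
  unfold bb L
  simp only
  rw [← AddCircle.coe_add]
  congr 2
  linear_combination (-t) * h

lemma bb_iter_L (n : ℕ) (t : ℝ) : bb^[n] (L t) = L (Real.goldenConj ^ n * t) := by
  induction n generalizing t with
  | zero => simp
  | succ n ih =>
    rw [iterate_succ_apply, bb_L, ih]
    congr 1
    ring

lemma abs_conj : |Real.goldenConj| < 1 := by
  rw [abs_lt]
  exact ⟨Real.neg_one_lt_goldenConj, Real.goldenConj_neg.trans one_pos⟩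

lemma L_tendsto (t : ℝ) : Tendsto (fun n : ℕ => bb^[n] (L t)) atTop (𝓝 0) := by
  have h1 : Tendsto (fun n : ℕ => Real.goldenConj ^ n * t) atTop (𝓝 (0 * t)) :=
    (tendsto_pow_atTop_nhds_zero_of_abs_lt_one abs_conj).mul_const t
  rw [zero_mul] at h1
  have h2 := (L_cont.tendsto 0).comp h1
  have h3 : L 0 = 0 := by
    unfold L
    simp
  rw [h3] at h2
  refine h2.congr fun n => ?_
  rw [bb_iter_L]
  rfl

lemma L_dense : Dense (range L) := by
  have hd : DenseRange (fun n : ℤ => n • ((Real.goldenConj : ℝ) : UnitAddCircle)) := by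
    rw [AddCircle.denseRange_zsmul_coe_iff, div_one]
    exact Real.goldenConj_irrational
  rintro ⟨x, y⟩
  obtain ⟨y0, rfl⟩ := QuotientAddGroup.mk_surjective y
  have hc : Continuous (fun z : UnitAddCircle =>
      ((((Real.goldenConj * y0 : ℝ) : UnitAddCircle) + z, ((y0 : ℝ) : UnitAddCircle)) :
        UnitAddCircle × UnitAddCircle)) := by fun_prop
  have h1 := hd (x - ((Real.goldenConj * y0 : ℝ) : UnitAddCircle))
  have h2 := mem_closure_image hc.continuousAt h1
  simp only [add_sub_cancel] at h2
  refine closure_mono ?_ h2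
  rintro _ ⟨_, ⟨n, rfl⟩, rfl⟩
  refine ⟨y0 + n, ?_⟩
  unfold L
  ext
  · simp only
    rw [mul_add, AddCircle.coe_add]
    congr 1
    rw [mul_comm, ← zsmul_eq_mul]
    rfl
  · simp only
    rw [AddCircle.coe_add]
    have : ((n : ℝ) : UnitAddCircle) = 0 := by
      rw [AddCircle.coe_eq_zero_iff]
      exact ⟨n, by simp⟩
    rw [this, add_zero]

theorem taskErg : TaskErg := by
  refine ⟨bb_mp, ⟨fun s hs hinv => ?_⟩⟩
  have hI1 : (volume : Measure (UnitAddCircle × UnitAddCircle)).IsAddLeftInvariant := by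
    rw [Measure.volume_eq_prod]
    infer_instance
  have hI2 : MeasurableAdd₂ (UnitAddCircle × UnitAddCircle) := inferInstance
  have hI3 : MeasurableNeg (UnitAddCircle × UnitAddCircle) := inferInstance
  refine aeconst_of_dense_setOfPred_preimage_vadd_ae (M := UnitAddCircle × UnitAddCircle)
    hs.nullMeasurableSet ?_
  refine L_dense.mono ?_
  rintro _ ⟨t, rfl⟩
  show ((L t) +ᵥ ·) ⁻¹' s =ᵐ[volume] s
  rw [← measure_symmDiff_eq_zero_iff]
  let f : C((UnitAddCircle × UnitAddCircle) × (UnitAddCircle × UnitAddCircle),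
    UnitAddCircle × UnitAddCircle) := ⟨(· + ·).uncurry, continuous_add⟩
  have hf : ∀ g, ⇑(f.curry g) = (g + ·) := fun g => rfl
  have h1 : Tendsto (fun n : ℕ => f.curry (bb^[n] (L t))) atTop (𝓝 (f.curry 0)) :=
    (f.curry.continuous.tendsto 0).comp (L_tendsto t)
  have h2 := tendsto_measure_symmDiff_preimage_nhds_zero (μ := volume) (ν := volume) (s := s) h1
    (Eventually.of_forall fun n => measurePreserving_add_left volume (bb^[n] (L t)))
    (measurePreserving_add_left volume 0) hs.nullMeasurableSet (measure_ne_top _ _)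
  have h3 : ∀ n : ℕ, (volume : Measure (UnitAddCircle × UnitAddCircle))
      ((⇑(f.curry (bb^[n] (L t))) ⁻¹' s) ∆ (⇑(f.curry 0) ⁻¹' s)) =
      volume ((((L t) +ᵥ ·) ⁻¹' s) ∆ s) := by
    intro n
    have hm : MeasurableSet ((⇑(f.curry (bb^[n] (L t))) ⁻¹' s) ∆ (⇑(f.curry 0) ⁻¹' s)) :=
      ((f.curry _).continuous.measurable hs).symmDiff ((f.curry 0).continuous.measurable hs)
    rw [← (bb_mp.iterate n).measure_preimage hm.nullMeasurableSet]
    congr 1
    have hi : bb^[n] ⁻¹' s = s := by
      rw [preimage_iterate_eq]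
      exact iterate_fixed hinv n
    ext x
    have e1 : x ∈ bb^[n] ⁻¹' s ↔ x ∈ s := by rw [hi]
    have e2 : L t + x ∈ bb^[n] ⁻¹' s ↔ L t + x ∈ s := by rw [hi]
    have e3 : bb^[n] (L t) + bb^[n] x ∈ s ↔ L t + x ∈ s := by
      rw [← bb_iter_add]; exact e2
    have e4 : bb^[n] x ∈ s ↔ x ∈ s := e1
    simp only [mem_preimage, mem_symmDiff, hf, zero_add, e3, e4, vadd_eq_add]
  simp only [h3] at h2
  exact tendsto_nhds_unique tendsto_const_nhds h2

end Pool.Agent.H165R4.CU.Ergb
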