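import Pool.Agent.H165R4.CU.Stmts

/-!
# Project H165-CU: assembly
-/

set_option autoImplicit false

open Set Filter Topology MeasureTheory Function
open scoped ContDiff ENNReal Real

namespace Pool.Agent.H165R4.CU

theorem bundle_mono {S S' : Set T3} {d : ℕ} {E : T3 → Submodule ℝ V3} (h : IsBundle S d E)
    (hS : S' ⊆ S) : IsBundle S' d E := by
  intro x hx
  obtain ⟨h1, v, hv, hli, hev⟩ := h x (hS hx)
  exact ⟨h1, v, fun i => (hv i).mono hS, hli, hev.filter_mono (nhdsWithin_mono x hS)⟩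

theorem noDom_gen (hL : TaskLift) (hI : TaskIter) (hB : BirkhoffLc) (h1 : TaskND1) (h2 : TaskND2)
    (h3 : TaskND3) {S : Set T3} (hT : ∀ a b : UnitAddCircle, ((a, b, 0) : T3) ∈ S) :
    ¬ HasDominatedSubsplitting ff FF S Ec := by
  rintro ⟨E1, E2, b1, b2, hsum, i1, i2, C, lam, hC, hl0, hl1, hdom⟩
  have hpr : ∀ x1 x2 : ℝ, pr (x1, x2, 0) =
      (((x1 : UnitAddCircle), (x2 : UnitAddCircle), (0 : UnitAddCircle)) : T3) := by
    intro x1 x2; simp [pr]
  have hae := h1 hL hI hB E1 E2 (fun a b => ⟨(hsum _ (hT a b)).1, (hsum _ (hT a b)).2,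
    (b1 _ (hT a b)).1, (b2 _ (hT a b)).1⟩) C lam hC hl0 hl1
    (fun x1 x2 n v hv w hw hv1 hw1 => hdom (x1, x2, 0) (by rw [hpr]; exact hT _ _) n v hv w hw hv1 hw1)
  have hfib := h2 S E1 hT b1 hae
  have hT0 : (0 : T3) ∈ S := hT 0 0
  have hpr0 : pr 0 = 0 := by simp [pr]
  have hFF0 : FF 0 = 0 := by simp [FF, hh, s1, s2]
  have hff0 : ff 0 = 0 := by
    have := hL.1 0
    rwa [hFF0, hpr0] at this
  have hi := i2 0 (by rw [hpr0]; exact hT0)
  rw [hpr0, hff0] at hi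
  exact h3 hL hI (E1 0) (E2 0) (hsum 0 hT0).1 (hsum 0 hT0).2 (b2 0 hT0).1 hfib (b1 0 hT0).1 hi
    C lam hC hl0 hl1 (fun n v hv w hw h h' => hdom 0 (by rw [hpr0]; exact hT0) n v
      (by rwa [hpr0]) w (by rwa [hpr0]) h h')

theorem mem_support (a b : UnitAddCircle) : ((a, b, 0) : T3) ∈ mu.support := by
  rw [Measure.mem_support_iff_forall]
  intro U hU
  have hc : Continuous (fun w : UnitAddCircle × UnitAddCircle =>
      ((w.1, w.2, (0 : UnitAddCircle)) : T3)) := by fun_prop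
  obtain ⟨V, hVU, hV, hmem⟩ := mem_nhds_iff.mp hU
  refine lt_of_lt_of_le ?_ (measure_mono hVU)
  unfold mu
  rw [Measure.map_apply hc.measurable hV.measurableSet]
  exact (hV.preimage hc).measure_pos volume ⟨(a, b), hmem⟩

theorem final (tLift : TaskLift) (tDer : TaskDer) (tBd : TaskBd) (tBij : TaskBij)
    (tTrap : TaskTrap) (tAttr : TaskAttr) (tDiss : TaskDiss) (tErg : TaskErg) (tMu : TaskMu)
    (tIter : TaskIter) (tInt : TaskInt) (tBirk : TaskBirk) (tExp : TaskExp) (tAC : TaskAC)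
    (tSt : TaskSt) (tSplit : TaskSplit) (tDom : TaskDom) (tND1 : TaskND1) (tND2 : TaskND2)
    (tND3 : TaskND3) :
    ∃ (f : T3 → T3) (F : V3 → V3) (Λ : Set T3) (Es Ec : T3 → Submodule ℝ V3) (μ : Measure T3),
      IsDiffeo f F ∧ IsDissipative f ∧ IsAttractingSet f Λ ∧ Λ ≠ univ ∧
      HasStableCenterUnstable f F Λ Es Ec ∧
      IsProbabilityMeasure μ ∧ Ergodic f μ ∧ μ Λᶜ = 0 ∧ μ.support ⊆ Λ ∧
      HasACConditionals f μ ∧ HasExponents F μ Ec ∧
      ¬ HasDominatedSubsplitting f F Λ Ec ∧ ¬ HasDominatedSubsplitting f F μ.support Ec := by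
  obtain ⟨hbij, hinv⟩ := tBij tLift tDer tBd
  obtain ⟨hNc, hNt, O, hO, hOne, hOsub⟩ := tTrap tLift tDer tBd
  have hNN : (0 : T3) ∈ NN := by
    show ‖(0 : UnitAddCircle)‖ ≤ 9 / 20
    rw [norm_zero]; norm_num
  have hA : IsAttractingSet ff LL := tAttr ff NN tLift.2.2 hbij hNc ⟨0, hNN⟩ hNt
  obtain ⟨hprob, herg, hmu, hT⟩ := tMu tLift tErg
  have hB : BirkhoffLc := tBirk tErg tInt
  obtain ⟨S, hS, hSe⟩ := tSt tLift tBd
  obtain ⟨s1, s2, s3, s4, s5⟩ := tSplit tLift tDer tBd S hS hSe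
  obtain ⟨C, lam, hC, hl0, hl1, hd⟩ := tDom tLift tDer tBd S hS hSe
  have hcl : IsClosed LL := hA.1.isClosed
  have hsup : mu.support ⊆ LL := by
    intro w hw
    by_contra hcon
    rw [Measure.mem_support_iff_forall] at hw
    have := hw LLᶜ (hcl.isOpen_compl.mem_nhds hcon)
    rw [hmu] at this
    exact lt_irrefl _ this
  refine ⟨ff, FF, LL, Es S, Ec, mu, ⟨tLift.1, tLift.2.1, hinv, hbij⟩,
    tDiss ff NN O tLift.2.2 hbij hNc (hNt.trans interior_subset) hO hOne hOsub, hA, ?_, ?_, hprob,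
    herg, hmu, hsup, tAC tLift hbij, tExp tLift tIter hB,
    noDom_gen tLift tIter hB tND1 tND2 tND3 hT,
    noDom_gen tLift tIter hB tND1 tND2 tND3 mem_support⟩
  · intro h
    obtain ⟨w, hw⟩ := hOne
    have h1 : w ∈ LL := by rw [h]; trivial
    have h2 : w ∈ ff '' NN := by
      have := mem_iInter.mp h1 1
      simpa using this
    exact (hOsub hw).2 h2
  · exact
      { bundleS := bundle_mono s4 (subset_univ _)
        bundleC := bundle_mono s5 (subset_univ _)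
        compl := fun x _ => s1 x
        invS := fun z _ => s2 z (mem_univ _)
        invC := fun z _ => s3 z (mem_univ _)
        dominated := ⟨C, lam, hC, hl0, hl1, fun z _ n v hv w hw h h' => hd z n v hv w hw h h'⟩ }

end Pool.Agent.H165R4.CU
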