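import Pool.Agent.H165R4.CU.Stmts

set_option autoImplicit false

open Set Filter Topology MeasureTheory Function
open scoped ContDiff ENNReal Real

namespace Pool.Agent.H165R4.CU.IntT

lemma coe_rep (a : UnitAddCircle) : ((rep a : ℝ) : UnitAddCircle) = a :=
  (AddCircle.equivIco (1 : ℝ) 0).symm_apply_apply a

lemma rep_meas : Measurable rep :=
  measurable_subtype_coe.comp (AddCircle.measurableEquivIco (1 : ℝ) 0).measurable

lemma rep_coe (x : ℝ) : ∃ n : ℤ, rep (x : UnitAddCircle) = x + n := by
  have h := coe_rep (x : UnitAddCircle)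
  rw [← sub_eq_zero, ← AddCircle.coe_sub, AddCircle.coe_eq_zero_iff] at h
  obtain ⟨n, hn⟩ := h
  refine ⟨n, ?_⟩
  have : (n : ℝ) = rep (x : UnitAddCircle) - x := by simpa using hn
  linarith

lemma lc_rep (x : ℝ) : lc (rep (x : UnitAddCircle)) = lc x := by
  obtain ⟨n, hn⟩ := rep_coe x
  unfold lc
  rw [hn, show 2 * π * (x + n) = 2 * π * x + n * (2 * π) by ring, Real.cos_add_int_mul_two_pi]

lemma lc_cont : Continuous lc := by
  unfold lc
  fun_prop

lemma lc_eq (x : ℝ) : lc x = -(3 / 32) + (19 / 40 * Real.cos (2 * π * x) +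
    19 / 160 * Real.cos (4 * π * x)) := by
  have h := Real.cos_two_mul (2 * π * x)
  rw [show 4 * π * x = 2 * (2 * π * x) by ring, h]
  unfold lc
  ring

lemma int_cos (k : ℕ) (hk : 0 < k) : ∫ x in (0 : ℝ)..1, Real.cos (k * (2 * π) * x) = 0 := by
  have hk' : (k : ℝ) * (2 * π) ≠ 0 := by positivity
  rw [intervalIntegral.integral_comp_mul_left (fun x => Real.cos x) hk']
  rw [integral_cos]
  have h : Real.sin ((k : ℝ) * (2 * π) * 1) = 0 := by
    rw [mul_one]
    have := Real.sin_nat_mul_pi (2 * k)
    rw [← this]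
    congr 1
    push_cast
    ring
  rw [h]
  simp

lemma lc_intv : ∫ x in (0 : ℝ)..1, lc x = -(3 / 32) := by
  have h1 : ∫ x in (0 : ℝ)..1, Real.cos (2 * π * x) = 0 := by
    have := int_cos 1 one_pos
    rw [Nat.cast_one, one_mul] at this
    exact this
  have h2 : ∫ x in (0 : ℝ)..1, Real.cos (4 * π * x) = 0 := by
    have := int_cos 2 two_pos
    rw [← this]
    congr 1
    funext x
    congr 1
    push_cast
    ring
  simp only [lc_eq]
  rw [intervalIntegral.integral_add (Continuous.intervalIntegrable (by fun_prop) _ _)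
      (Continuous.intervalIntegrable (by fun_prop) _ _),
    intervalIntegral.integral_add (Continuous.intervalIntegrable (by fun_prop) _ _)
      (Continuous.intervalIntegrable (by fun_prop) _ _),
    intervalIntegral.integral_const_mul, intervalIntegral.integral_const_mul, h1, h2]
  simp

lemma lc_int : ∫ a : UnitAddCircle, lc (rep a) = -(3 / 32) := by
  rw [← AddCircle.intervalIntegral_preimage (1 : ℝ) 0]
  simp only [lc_rep, zero_add]
  exact lc_intv

end Pool.Agent.H165R4.CU.IntT

namespace Pool.Agent.H165R4.CU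

open IntT

theorem taskInt : TaskInt := by
  refine ⟨?_, ?_, ?_⟩
  · rw [Measure.volume_eq_prod, integral_fun_fst (fun a => lc (rep a)), lc_int]
    have h : (volume : Measure UnitAddCircle).real univ = 1 := by
      rw [Measure.real, UnitAddCircle.measure_univ]
      rfl
    rw [h, one_smul]
  · exact lc_cont.measurable.comp (rep_meas.comp measurable_fst)
  · intro x
    unfold lc
    have h1 := Real.neg_one_le_cos (2 * π * x)
    have h2 := Real.cos_le_one (2 * π * x)
    have h3 : 0 ≤ ((1 + Real.cos (2 * π * x)) / 2) ^ 2 := sq_nonneg _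
    have h4 : ((1 + Real.cos (2 * π * x)) / 2) ^ 2 ≤ 1 := by
      rw [sq_le_one_iff_abs_le_one, abs_le]
      constructor <;> linarith
    rw [abs_le]
    constructor <;> linarith

end Pool.Agent.H165R4.CU
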