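import Mathlib
import Pool.Agent.H165R4.CU.Stmts

set_option autoImplicit false

open Set Filter Topology MeasureTheory Function
open scoped ContDiff ENNReal Real

namespace Pool.Agent.H165R4.CU.IterT

open Pool.Agent.H165R4.CU

theorem lc_rep (x : ℝ) : lc (rep (x : UnitAddCircle)) = lc x := by
  unfold rep
  have h : ((AddCircle.equivIco 1 0 (x : UnitAddCircle) : ℝ)) = Int.fract x := by
    have := AddCircle.coe_equivIco_mk_apply (p := (1 : ℝ)) x
    rw [div_one, mul_one] at this
    exact this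
  rw [h]
  unfold lc
  have h2 : Real.cos (2 * π * Int.fract x) = Real.cos (2 * π * x) := by
    rw [Int.fract, mul_sub, show 2 * π * ((⌊x⌋ : ℤ) : ℝ) = (⌊x⌋ : ℤ) * (2 * π) from by ring,
      Real.cos_sub_int_mul_two_pi]
  rw [h2]

theorem sin2 (m : ℤ) : Real.sin (2 * π * m) = 0 := by
  rw [show 2 * π * (m : ℝ) = ((2 * m : ℤ) : ℝ) * π from by push_cast; ring]
  exact Real.sin_int_mul_pi _

theorem sin4 (m : ℤ) : Real.sin (4 * π * m) = 0 := by
  rw [show 4 * π * (m : ℝ) = ((4 * m : ℤ) : ℝ) * π from by push_cast; ring]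
  exact Real.sin_int_mul_pi _

theorem cos2 (m : ℤ) : Real.cos (2 * π * m) = 1 := by
  rw [show 2 * π * (m : ℝ) = (m : ℝ) * (2 * π) from by ring]
  exact Real.cos_int_mul_two_pi m

theorem cos4 (m : ℤ) : Real.cos (4 * π * m) = 1 := by
  rw [show 4 * π * (m : ℝ) = ((2 * m : ℤ) : ℝ) * (2 * π) from by push_cast; ring]
  exact Real.cos_int_mul_two_pi _

theorem FF_m (x1 x2 : ℝ) (m : ℤ) : FF (x1, x2, (m : ℝ)) = (x1 + x2, x1, (m : ℝ)) := by
  unfold FF hh s1 s2
  simp only [sin2, sin4]
  simp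

theorem gg_m (x1 : ℝ) (m : ℤ) : gg x1 m = 0 := by
  unfold gg s1
  simp only [sin2, sin4]
  simp

theorem aa_m (x1 : ℝ) (m : ℤ) : aa x1 m = cc x1 := by
  unfold aa
  simp only [cos2, cos4]
  ring

theorem taskIter : TaskIter := by
  intro _ hD x1 x2 m n
  induction n generalizing x1 x2 with
  | zero =>
    refine ⟨ContinuousLinearMap.id ℝ V3, hasFDerivAt_id _, by simp, 1, one_pos, by simp, by simp⟩
  | succ n ih =>
    obtain ⟨D1, hD1, h1, c, hc, h2, h3⟩ := ih (x1 + x2) x1
    obtain ⟨D0, hD0, h0⟩ := hD (x1, x2, (m : ℝ))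
    have hF := FF_m x1 x2 m
    have hg := gg_m x1 m
    have ha := aa_m x1 m
    rw [← hF] at hD1
    refine ⟨D1.comp D0, ?_, ?_, cc x1 * c, mul_pos (Real.exp_pos _) hc, ?_, ?_⟩
    · rw [Function.iterate_succ]
      exact hD1.comp _ hD0
    · rw [ContinuousLinearMap.comp_apply, h0]
      simp only [hg, mul_zero, zero_mul, add_zero]
      have e : ((Real.goldenRatio + 1, Real.goldenRatio, (0 : ℝ)) : V3) =
          Real.goldenRatio • ((Real.goldenRatio, 1, 0) : V3) := by
        have := Real.goldenRatio_sq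
        refine Prod.ext ?_ (Prod.ext ?_ ?_)
        · simp only [Prod.smul_mk, smul_eq_mul]; rw [← sq, this]
        · simp
        · simp
      rw [e, map_smul, h1]
      refine Prod.ext ?_ (Prod.ext ?_ ?_)
      · simp only [Prod.smul_mk, smul_eq_mul]; ring
      · simp only [Prod.smul_mk, smul_eq_mul]; ring
      · simp
    · rw [ContinuousLinearMap.comp_apply, h0]
      simp only [hg, ha, mul_zero, add_zero, mul_one, zero_add]
      have e : (((0 : ℝ), (0 : ℝ), cc x1) : V3) = cc x1 • ((0, 0, 1) : V3) := by simp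
      rw [e, map_smul, h2]
      simp
    · rw [show cc x1 = Real.exp (lc x1) from rfl, Real.log_mul (Real.exp_pos _).ne' hc.ne', h3,
        Finset.sum_range_succ', add_comm, Real.log_exp]
      congr 1
      exact (lc_rep x1).symm

end Pool.Agent.H165R4.CU.IterT
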