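import Mathlib
import Pool.Agent.H165R4.CU.Stmts

/-!
Project H165-CU (helper165), task Lift (helper174).
-/

set_option autoImplicit false

open Set Filter Topology MeasureTheory Function
open scoped ContDiff Real

namespace Pool.Agent.H165R4.CU.Lift174

open Pool.Agent.H165R4.CU

theorem coe_rep (a : UnitAddCircle) : ((rep a : ℝ) : UnitAddCircle) = a :=
  AddCircle.coe_equivIco

theorem rep_coe (x : ℝ) : ∃ k : ℤ, rep (x : UnitAddCircle) = x + k := by
  have h1 : ((rep (x : UnitAddCircle) - x : ℝ) : UnitAddCircle) = 0 := by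
    rw [AddCircle.coe_sub, coe_rep, sub_self]
  obtain ⟨k, hk⟩ := (AddCircle.coe_eq_zero_iff (1 : ℝ)).1 h1
  refine ⟨k, ?_⟩
  rw [zsmul_eq_mul, mul_one] at hk
  linarith

theorem coe_add_int (x : ℝ) (k : ℤ) : ((x + k : ℝ) : UnitAddCircle) = (x : UnitAddCircle) := by
  rw [AddCircle.coe_add]
  have h : ((k : ℝ) : UnitAddCircle) = 0 :=
    (AddCircle.coe_eq_zero_iff (1 : ℝ)).2 ⟨k, by simp⟩
  rw [h, add_zero]

theorem cc_per (x : ℝ) (k : ℤ) : cc (x + k) = cc x := by
  unfold cc lc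
  have h : 2 * π * (x + k) = 2 * π * x + k * (2 * π) := by ring
  rw [h, Real.cos_add_int_mul_two_pi]

theorem sin2 (y : ℝ) (m : ℤ) : Real.sin (2 * π * (y + m)) = Real.sin (2 * π * y) := by
  have h : 2 * π * (y + m) = 2 * π * y + m * (2 * π) := by ring
  rw [h, Real.sin_add_int_mul_two_pi]

theorem sin4 (y : ℝ) (m : ℤ) : Real.sin (4 * π * (y + m)) = Real.sin (4 * π * y) := by
  have h : 4 * π * (y + m) = 4 * π * y + ((2 * m : ℤ) : ℝ) * (2 * π) := by push_cast; ring
  rw [h, Real.sin_add_int_mul_two_pi]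

theorem hh_per (x y : ℝ) (k m : ℤ) : hh (x + k) (y + m) = hh x y + m := by
  unfold hh s1 s2
  rw [cc_per, sin2, sin4]
  ring

theorem lift_eq (z : V3) : ff (pr z) = pr (FF z) := by
  obtain ⟨x1, x2, y⟩ := z
  obtain ⟨k, hk⟩ := rep_coe x1
  obtain ⟨l, hl⟩ := rep_coe x2
  obtain ⟨m, hm⟩ := rep_coe y
  show pr (FF (rep (x1 : UnitAddCircle), rep (x2 : UnitAddCircle), rep (y : UnitAddCircle))) = _
  rw [hk, hl, hm]
  unfold FF pr
  simp only
  rw [hh_per, coe_add_int, coe_add_int]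
  have h : x1 + (k : ℝ) + (x2 + (l : ℝ)) = x1 + x2 + ((k + l : ℤ) : ℝ) := by push_cast; ring
  rw [h, coe_add_int]

theorem contDiff_FF : ContDiff ℝ ∞ FF := by
  unfold FF hh cc lc s1 s2
  fun_prop

theorem isOpenQuotientMap_pr : IsOpenQuotientMap pr := by
  have h : IsOpenQuotientMap ((↑) : ℝ → UnitAddCircle) := QuotientAddGroup.isOpenQuotientMap_mk
  exact h.prodMap (h.prodMap h)

theorem continuous_pr : Continuous pr := isOpenQuotientMap_pr.continuous

theorem continuous_ff : Continuous ff := by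
  rw [isOpenQuotientMap_pr.isQuotientMap.continuous_iff]
  have h : ff ∘ pr = pr ∘ FF := funext lift_eq
  rw [h]
  exact continuous_pr.comp contDiff_FF.continuous

theorem taskLift : TaskLift := ⟨lift_eq, contDiff_FF, continuous_ff⟩

end Pool.Agent.H165R4.CU.Lift174
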