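import Pool.Agent.H165R4.CU.Stmts

set_option autoImplicit false

open Set Filter Topology MeasureTheory Function

namespace Pool.Agent.H165R4.CU.Mu

/-- the embedding of the invariant torus -/
def emb (w : UnitAddCircle × UnitAddCircle) : T3 := (w.1, w.2, 0)

lemma emb_cont : Continuous emb := by
  unfold emb
  fun_prop

lemma hh_zero (x : ℝ) : hh x 0 = 0 := by
  simp [hh, s1, s2]

lemma semi (hl : TaskLift) (w : UnitAddCircle × UnitAddCircle) : ff (emb w) = emb (bb w) := by
  obtain ⟨a, b⟩ := w
  induction a using QuotientAddGroup.induction_on with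
  | H x =>
    induction b using QuotientAddGroup.induction_on with
    | H y =>
      have h := hl.1 (x, y, 0)
      have h1 : pr (x, y, 0) = emb ((x : UnitAddCircle), (y : UnitAddCircle)) := by
        simp [pr, emb]
      have h2 : pr (FF (x, y, 0)) = emb (bb ((x : UnitAddCircle), (y : UnitAddCircle))) := by
        simp [pr, emb, FF, bb, hh_zero]
      rw [← h1, ← h2]
      exact h

lemma bb_surj : Surjective bb := by
  rintro ⟨a, b⟩
  exact ⟨(b, a - b), by simp [bb]⟩

lemma emb_mem_NN (w : UnitAddCircle × UnitAddCircle) : emb w ∈ NN := by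
  show ‖(0 : UnitAddCircle)‖ ≤ 9 / 20
  rw [norm_zero]
  norm_num

lemma emb_mem_LL (hl : TaskLift) (w : UnitAddCircle × UnitAddCircle) : emb w ∈ LL := by
  refine mem_iInter.2 fun n => ?_
  obtain ⟨v, hv⟩ := (bb_surj.iterate n) w
  refine ⟨emb v, emb_mem_NN v, ?_⟩
  have h : Semiconj emb bb ff := fun w => (semi hl w).symm
  have h2 := (h.iterate_right n) v
  rw [← h2, hv]

theorem taskMu : TaskMu := by
  intro hl he
  have hc : Continuous ff := hl.2.2
  have hm : Measurable emb := emb_cont.measurable
  have hmu : mu = (volume : Measure (UnitAddCircle × UnitAddCircle)).map emb := rfl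
  have hmp : MeasurePreserving emb (volume : Measure (UnitAddCircle × UnitAddCircle)) mu := ⟨hm, rfl⟩
  have hsc : Semiconj emb bb ff := fun w => (semi hl w).symm
  have hNN : IsClosed NN := by
    refine isClosed_le ?_ continuous_const
    fun_prop
  have hLL : IsClosed LL := by
    refine isClosed_iInter fun n => ?_
    exact ((hNN.isCompact).image (hc.iterate n)).isClosed
  refine ⟨?_, ?_, ?_, fun a b => emb_mem_LL hl (a, b)⟩
  · rw [hmu]
    have h1 : IsProbabilityMeasure (volume : Measure UnitAddCircle) := ⟨UnitAddCircle.measure_univ⟩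
    have h2 : IsProbabilityMeasure (volume : Measure (UnitAddCircle × UnitAddCircle)) :=
      inferInstanceAs (IsProbabilityMeasure
        ((volume : Measure UnitAddCircle).prod (volume : Measure UnitAddCircle)))
    exact Measure.isProbabilityMeasure_map hm.aemeasurable
  · exact hmp.ergodic_of_ergodic_semiconj he hc.measurable hsc
  · rw [hmu, Measure.map_apply hm hLL.measurableSet.compl]
    convert measure_empty (μ := (volume : Measure (UnitAddCircle × UnitAddCircle)))
    ext w
    simp [emb_mem_LL hl w]

end Pool.Agent.H165R4.CU.Mu
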