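import Pool.Agent.H165R4.CU.Stmts

/-! Project H165-CU, task ND1 (helper387). -/

set_option autoImplicit false

open Set Filter Topology MeasureTheory Function
open scoped ContDiff ENNReal Real

namespace Pool.Agent.H165R4.CU.ND1

theorem der (hL : TaskLift) (hD : TaskDer) (hI : TaskIter) (x1 x2 : ℝ) (n : ℕ) :
    ∃ c : ℝ, 0 < c ∧ Real.log c = ∑ k ∈ Finset.range n,
        lc (rep ((bb^[k]) ((x1 : UnitAddCircle), (x2 : UnitAddCircle))).1) ∧
      ∀ a b : ℝ, fderiv ℝ (FF^[n]) (x1, x2, 0)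
        (a • ((Real.goldenRatio, 1, 0) : V3) + b • ((0, 0, 1) : V3)) =
          (a * (Real.goldenRatio ^ n * Real.goldenRatio), a * Real.goldenRatio ^ n, b * c) := by
  obtain ⟨D, h1, h2, c, hc, h3, h4⟩ := hI hL hD x1 x2 0 n
  refine ⟨c, hc, h4, fun a b => ?_⟩
  simp only [Int.cast_zero] at h1
  rw [h1.fderiv, map_add, map_smul, map_smul, h2, h3]
  simp

theorem taskND1_of (hD : TaskDer) : TaskND1 := by
  intro hL hI hB E1 E2 hE C lam hC hl0 hl1 hdom
  have hφ1 : 1 < Real.goldenRatio := Real.one_lt_goldenRatio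
  filter_upwards [hB] with w hw
  obtain ⟨w1, w2⟩ := w
  obtain ⟨x1, rfl⟩ := QuotientAddGroup.mk_surjective w1
  obtain ⟨x2, rfl⟩ := QuotientAddGroup.mk_surjective w2
  obtain ⟨hinf, hsup, hr1, hr2⟩ := hE (x1 : UnitAddCircle) (x2 : UnitAddCircle)
  have hdom' := hdom x1 x2
  have hpr : pr (x1, x2, 0) = ((x1 : UnitAddCircle), (x2 : UnitAddCircle), (0 : UnitAddCircle)) := by
    simp [pr]
  rw [hpr] at hdom'
  change ((0, 0, 1) : V3) ∈ E1 ((x1 : UnitAddCircle), (x2 : UnitAddCircle), 0)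
  change Tendsto (fun n : ℕ => (n : ℝ)⁻¹ * ∑ k ∈ Finset.range n,
    lc (rep ((bb^[k]) ((x1 : UnitAddCircle), (x2 : UnitAddCircle))).1)) atTop (𝓝 (-(3 / 32))) at hw
  set P1 := E1 ((x1 : UnitAddCircle), (x2 : UnitAddCircle), 0) with hP1
  set P2 := E2 ((x1 : UnitAddCircle), (x2 : UnitAddCircle), 0) with hP2
  by_contra hne
  -- unit vectors
  have hunit : ∀ P : Submodule ℝ V3, Module.finrank ℝ P = 1 → ∃ v ∈ P, ‖v‖ = 1 := by
    intro P hP
    obtain ⟨v, hv0, -⟩ := finrank_eq_one_iff'.1 hP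
    have hv : (v : V3) ≠ 0 := fun h => hv0 (Subtype.ext h)
    refine ⟨‖(v : V3)‖⁻¹ • (v : V3), P.smul_mem _ v.2, ?_⟩
    rw [norm_smul, norm_inv, norm_norm, inv_mul_cancel₀ (norm_ne_zero_iff.2 hv)]
  obtain ⟨v, hv, hv1⟩ := hunit P1 hr1
  obtain ⟨u, hu, hu1⟩ := hunit P2 hr2
  have hvE : v ∈ Ec ((x1 : UnitAddCircle), (x2 : UnitAddCircle), 0) := by
    rw [← hsup]; exact Submodule.mem_sup_left hv
  have huE : u ∈ Ec ((x1 : UnitAddCircle), (x2 : UnitAddCircle), 0) := by
    rw [← hsup]; exact Submodule.mem_sup_right hu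
  obtain ⟨a, b, hab⟩ := Submodule.mem_span_pair.1 hvE
  obtain ⟨a', b', hab'⟩ := Submodule.mem_span_pair.1 huE
  have ha : a ≠ 0 := by
    rintro rfl
    rw [zero_smul, zero_add] at hab
    have hb : b ≠ 0 := by
      rintro rfl
      rw [zero_smul] at hab
      rw [← hab, norm_zero] at hv1
      exact zero_ne_one hv1
    apply hne
    have : ((0, 0, 1) : V3) = b⁻¹ • v := by
      rw [← hab, smul_smul, inv_mul_cancel₀ hb, one_smul]
    rw [this]
    exact P1.smul_mem _ hv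
  set K : ℝ := |a'| * Real.goldenRatio + |b'| with hK
  have hK0 : 0 ≤ K := by positivity
  -- the sums are eventually negative
  have hneg : ∀ᶠ n : ℕ in atTop, (n : ℝ)⁻¹ * ∑ k ∈ Finset.range n,
      lc (rep ((bb^[k]) ((x1 : UnitAddCircle), (x2 : UnitAddCircle))).1) < 0 :=
    hw.eventually_lt_const (by norm_num)
  have hsmall : ∀ᶠ n : ℕ in atTop, C * K * lam ^ n < |a| := by
    have h1 : Tendsto (fun n : ℕ => C * K * lam ^ n) atTop (𝓝 (C * K * 0)) :=
      (tendsto_pow_atTop_nhds_zero_of_lt_one hl0.le hl1).const_mul _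
    rw [mul_zero] at h1
    exact h1.eventually_lt_const (abs_pos.2 ha)
  obtain ⟨n, hn1, hn2⟩ := (hneg.and hsmall).exists
  obtain ⟨c, hc, hlog, hder⟩ := der hL hD hI x1 x2 n
  rw [← hlog] at hn1
  have hc1 : c ≤ 1 := by
    by_contra hcon
    push Not at hcon
    have h1 : 0 < Real.log c := Real.log_pos hcon
    have h2 : (0 : ℝ) ≤ (n : ℝ)⁻¹ := by positivity
    have h3 := mul_nonneg h2 h1.le
    linarith
  have hφn : (1 : ℝ) ≤ Real.goldenRatio ^ n := one_le_pow₀ hφ1.le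
  have hφn0 : (0 : ℝ) < Real.goldenRatio ^ n := by positivity
  have hineq := hdom' n v hv u hu hv1 hu1
  rw [← hab, ← hab', hder, hder] at hineq
  have hlow : |a| * Real.goldenRatio ^ n ≤
      ‖((a * (Real.goldenRatio ^ n * Real.goldenRatio), a * Real.goldenRatio ^ n, b * c) : V3)‖ := by
    rw [Prod.norm_mk, Prod.norm_mk, Real.norm_eq_abs (a * Real.goldenRatio ^ n), abs_mul,
      abs_of_pos hφn0]
    exact (le_max_left _ _).trans (le_max_right _ _)
  have hupp : ‖((a' * (Real.goldenRatio ^ n * Real.goldenRatio), a' * Real.goldenRatio ^ n,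
      b' * c) : V3)‖ ≤ K * Real.goldenRatio ^ n := by
    rw [Prod.norm_mk, Prod.norm_mk, Real.norm_eq_abs, Real.norm_eq_abs, Real.norm_eq_abs,
      abs_mul a' (Real.goldenRatio ^ n * Real.goldenRatio), abs_mul a' (Real.goldenRatio ^ n),
      abs_mul b' c, abs_of_pos (mul_pos hφn0 (by linarith : (0 : ℝ) < Real.goldenRatio)),
      abs_of_pos hφn0, abs_of_pos hc]
    have e1 : 0 ≤ |a'| * Real.goldenRatio ^ n := by positivity
    have e2 : 0 ≤ |b'| * Real.goldenRatio ^ n := by positivity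
    have e3 : |a'| * Real.goldenRatio ^ n ≤ |a'| * Real.goldenRatio ^ n * Real.goldenRatio :=
      le_mul_of_one_le_right e1 hφ1.le
    have e4 : |b'| * c ≤ |b'| * Real.goldenRatio ^ n :=
      mul_le_mul_of_nonneg_left (hc1.trans hφn) (abs_nonneg _)
    have e5 : K * Real.goldenRatio ^ n =
        |a'| * Real.goldenRatio ^ n * Real.goldenRatio + |b'| * Real.goldenRatio ^ n := by
      rw [hK]; ring
    have e6 : |a'| * (Real.goldenRatio ^ n * Real.goldenRatio) =
        |a'| * Real.goldenRatio ^ n * Real.goldenRatio := by ring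
    rw [e5, e6]
    refine max_le (by linarith) (max_le (by linarith) ?_)
    have e7 : 0 ≤ |a'| * Real.goldenRatio ^ n * Real.goldenRatio := by positivity
    linarith
  have hlamn : 0 ≤ C * lam ^ n := by positivity
  have h5 : |a| * Real.goldenRatio ^ n ≤ C * lam ^ n * (K * Real.goldenRatio ^ n) :=
    hlow.trans (hineq.trans (mul_le_mul_of_nonneg_left hupp hlamn))
  have h6 : |a| * Real.goldenRatio ^ n ≤ (C * K * lam ^ n) * Real.goldenRatio ^ n := by
    calc _ ≤ _ := h5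
      _ = _ := by ring
  have h7 := le_of_mul_le_mul_right h6 hφn0
  linarith

end Pool.Agent.H165R4.CU.ND1
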