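import Pool.Agent.H165R4.CU.Stmts

set_option autoImplicit false

open Set Filter Topology MeasureTheory Function

namespace Pool.Agent.H165R4.CU

theorem taskND2 : TaskND2 := by
  intro S E1 hS hB hae
  obtain ⟨-, v, hvc, hli, hev⟩ := hB (0, 0, 0) (hS 0 0)
  let i : UnitAddCircle × UnitAddCircle → T3 := fun w => (w.1, w.2, 0)
  have hic : Continuous i := by fun_prop
  have hi0 : i (0, 0) = (0, 0, 0) := rfl
  have hiS : ∀ w, i w ∈ S := fun w => hS w.1 w.2
  have hit : Tendsto i (𝓝 (0, 0)) (𝓝[S] (0, 0, 0)) := by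
    refine tendsto_nhdsWithin_iff.2 ⟨?_, Eventually.of_forall hiS⟩
    rw [← hi0]
    exact hic.tendsto _
  have hdense : Dense {w : UnitAddCircle × UnitAddCircle | ((0, 0, 1) : V3) ∈ E1 (i w)} :=
    Measure.dense_of_ae hae
  have : (𝓝[{w : UnitAddCircle × UnitAddCircle | ((0, 0, 1) : V3) ∈ E1 (i w)}] (0, 0)).NeBot :=
    mem_closure_iff_nhdsWithin_neBot.1 (hdense (0, 0))
  have hvt : Tendsto (fun w => v 0 (i w))
      (𝓝[{w : UnitAddCircle × UnitAddCircle | ((0, 0, 1) : V3) ∈ E1 (i w)}] (0, 0))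
      (𝓝 (v 0 (0, 0, 0))) :=
    (Tendsto.comp (hvc 0) hit).mono_left nhdsWithin_le_nhds
  have h1 : ∀ᶠ w in
      𝓝[{w : UnitAddCircle × UnitAddCircle | ((0, 0, 1) : V3) ∈ E1 (i w)}] (0, 0),
      (v 0 (i w)).1 = 0 ∧ (v 0 (i w)).2.1 = 0 := by
    have h2 : ∀ᶠ w in
      𝓝[{w : UnitAddCircle × UnitAddCircle | ((0, 0, 1) : V3) ∈ E1 (i w)}] (0, 0),
      ∀ j, v j (i w) ∈ E1 (i w) := (hit.eventually hev).filter_mono nhdsWithin_le_nhds
    filter_upwards [h2, self_mem_nhdsWithin] with w hw hw2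
    have hfr := (hB (i w) (hiS w)).1
    have hne : (⟨((0, 0, 1) : V3), hw2⟩ : E1 (i w)) ≠ 0 := by
      intro h
      have := congrArg (fun z : E1 (i w) => (z : V3).2.2) h
      simp at this
    obtain ⟨c, hc⟩ := (finrank_eq_one_iff_of_nonzero' _ hne).1 hfr ⟨v 0 (i w), hw 0⟩
    have hc' : c • ((0, 0, 1) : V3) = v 0 (i w) := congrArg Subtype.val hc
    rw [← hc']
    simp
  have e1 : (v 0 (0, 0, 0)).1 = 0 := by
    refine tendsto_nhds_unique ((continuous_fst.tendsto _).comp hvt) ?_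
    exact tendsto_const_nhds.congr' (h1.mono fun w hw => hw.1.symm)
  have e2 : (v 0 (0, 0, 0)).2.1 = 0 := by
    refine tendsto_nhds_unique (((continuous_fst.comp continuous_snd).tendsto _).comp hvt) ?_
    exact tendsto_const_nhds.congr' (h1.mono fun w hw => hw.2.symm)
  have hne : v 0 (0, 0, 0) ≠ 0 := hli.ne_zero 0
  have hmem : v 0 (0, 0, 0) ∈ E1 (0, 0, 0) := hev.self_of_nhdsWithin (hS 0 0) 0
  have e3 : (v 0 (0, 0, 0)).2.2 ≠ 0 := by
    intro h
    apply hne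
    ext
    · exact e1
    · exact e2
    · exact h
  have e4 : ((0, 0, 1) : V3) = ((v 0 (0, 0, 0)).2.2)⁻¹ • v 0 (0, 0, 0) := by
    ext
    · simp [e1]
    · simp [e2]
    · simp [e3]
  rw [e4]
  exact Submodule.smul_mem _ _ hmem

end Pool.Agent.H165R4.CU
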