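import Pool.Agent.H165R4.CU.Stmts

set_option autoImplicit false

open Set Filter Topology MeasureTheory Function
open scoped ContDiff ENNReal Real

/-! Task ND3 of project H165-CU: no dominated subsplitting at the fixed point. -/

namespace Pool.Agent.H165R4.CU.ND3

theorem lc_deriv (x : ℝ) : HasDerivAt lc
    (19 / 20 * (-π * Real.sin (2 * π * x) * (1 + Real.cos (2 * π * x)))) x := by
  have h1 : HasDerivAt (fun x : ℝ => 2 * π * x) (2 * π) x := by
    simpa using (hasDerivAt_id x).const_mul (2 * π)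
  have h2 : HasDerivAt (fun x : ℝ => (1 + Real.cos (2 * π * x)) / 2)
      ((-Real.sin (2 * π * x) * (2 * π)) / 2) x := (h1.cos.const_add 1).div_const 2
  have h3 : HasDerivAt (fun x : ℝ => -(9 / 20 : ℝ) + 19 / 20 * ((1 + Real.cos (2 * π * x)) / 2) ^ 2)
      (19 / 20 * ((2 : ℕ) * ((1 + Real.cos (2 * π * x)) / 2) ^ (2 - 1) *
        ((-Real.sin (2 * π * x) * (2 * π)) / 2))) x :=
    ((h2.pow 2).const_mul (19 / 20 : ℝ)).const_add (-(9 / 20 : ℝ))
  refine h3.congr_deriv ?_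
  push_cast
  ring

theorem cc_deriv (x : ℝ) : HasDerivAt cc
    (cc x * (19 / 20 * (-π * Real.sin (2 * π * x) * (1 + Real.cos (2 * π * x))))) x :=
  (lc_deriv x).exp

theorem s1_deriv (y : ℝ) : HasDerivAt s1
    ((Real.cos (2 * π * y) + Real.cos (4 * π * y)) / 2) y := by
  have h1 : HasDerivAt (fun x : ℝ => 2 * π * x) (2 * π) y := by
    simpa using (hasDerivAt_id y).const_mul (2 * π)
  have h2 : HasDerivAt (fun x : ℝ => 4 * π * x) (4 * π) y := by
    simpa using (hasDerivAt_id y).const_mul (4 * π)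
  have h3 := (h1.sin.add (h2.sin.div_const 2)).div_const (4 * π)
  refine h3.congr_deriv ?_
  have := Real.pi_pos
  field_simp
  ring

theorem s2_deriv (y : ℝ) : HasDerivAt s2
    (-(1 / 50 * ((Real.cos (2 * π * y) - Real.cos (4 * π * y)) / 2))) y := by
  have h1 : HasDerivAt (fun x : ℝ => 2 * π * x) (2 * π) y := by
    simpa using (hasDerivAt_id y).const_mul (2 * π)
  have h2 : HasDerivAt (fun x : ℝ => 4 * π * x) (4 * π) y := by
    simpa using (hasDerivAt_id y).const_mul (4 * π)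
  have h3 := ((h1.sin.sub (h2.sin.div_const 2)).const_mul (-(1 / 50) : ℝ)).div_const (4 * π)
  refine h3.congr_deriv ?_
  have := Real.pi_pos
  field_simp
  ring

theorem der : TaskDer := by
  intro z
  have f1 : HasFDerivAt (fun z : V3 => z.1) (ContinuousLinearMap.fst ℝ ℝ (ℝ × ℝ)) z :=
    hasFDerivAt_fst
  have f2 : HasFDerivAt (fun z : V3 => z.2.1)
      ((ContinuousLinearMap.fst ℝ ℝ ℝ).comp (ContinuousLinearMap.snd ℝ ℝ (ℝ × ℝ))) z :=
    (hasFDerivAt_fst (p := z.2)).comp z hasFDerivAt_snd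
  have f3 : HasFDerivAt (fun z : V3 => z.2.2)
      ((ContinuousLinearMap.snd ℝ ℝ ℝ).comp (ContinuousLinearMap.snd ℝ ℝ (ℝ × ℝ))) z :=
    (hasFDerivAt_snd (p := z.2)).comp z hasFDerivAt_snd
  have g1 := ((cc_deriv z.1).comp_hasFDerivAt z f1).sub_const (1 : ℝ)
  have g2 := (s1_deriv z.2.2).comp_hasFDerivAt z f3
  have g3 := (s2_deriv z.2.2).comp_hasFDerivAt z f3
  have g4 := (f3.add (g1.mul g2)).add g3
  have g5 := (f1.add f2).prodMk (f1.prodMk g4)
  refine ⟨_, g5, ?_⟩
  intro v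
  simp only [ContinuousLinearMap.prod_apply, ContinuousLinearMap.add_apply,
    ContinuousLinearMap.smul_apply, ContinuousLinearMap.comp_apply, ContinuousLinearMap.coe_fst',
    ContinuousLinearMap.coe_snd', smul_eq_mul, Function.comp_apply, gg, aa]
  refine Prod.ext rfl (Prod.ext rfl ?_)
  simp only
  ring

theorem phi_lt : Real.goldenRatio < Real.exp (1 / 2) := by
  have h1 := Real.goldenRatio_sq
  have h2 := Real.goldenRatio_pos
  have h3 := Real.exp_one_gt_d9
  have h4 : Real.exp (1 / 2) ^ 2 = Real.exp 1 := by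
    rw [← Real.exp_nat_mul]; norm_num
  have h5 : Real.goldenRatio < 17 / 10 := by nlinarith
  have h6 : Real.goldenRatio ^ 2 < Real.exp (1 / 2) ^ 2 := by rw [h4, h1]; linarith
  exact lt_of_pow_lt_pow_left₀ 2 (Real.exp_pos _).le h6

theorem rep_zero : rep (0 : UnitAddCircle) = 0 := by
  unfold rep
  have h := AddCircle.coe_equivIco_mk_apply (1 : ℝ) 0
  have h2 : ((0 : ℝ) : UnitAddCircle) = 0 := rfl
  rw [← h2]
  exact h.trans (by simp)

theorem lc_zero : lc 0 = 1 / 2 := by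
  unfold lc
  rw [mul_zero, Real.cos_zero]
  norm_num

theorem iter_zero (k : ℕ) : (bb^[k]) ((0 : UnitAddCircle), (0 : UnitAddCircle)) = (0, 0) := by
  apply Function.iterate_fixed
  simp [bb]

theorem taskND3_of_der (hDer : TaskDer) : TaskND3 := by
  intro hL hI E1 E2 hinf hsup hE2 hv hE1 hinv C lam hC hl0 hl1 hdom
  -- the iterates
  have hD : ∀ n : ℕ, fderiv ℝ (FF^[n]) 0 (Real.goldenRatio, 1, 0) =
      (Real.goldenRatio ^ n * Real.goldenRatio, Real.goldenRatio ^ n, 0) ∧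
      fderiv ℝ (FF^[n]) 0 (0, 0, 1) = (0, 0, Real.exp (n * (1 / 2))) := by
    intro n
    obtain ⟨D, h1, h2, c, hc, h3, h4⟩ := hI hL hDer 0 0 0 n
    have h0 : ((0, 0, ((0 : ℤ) : ℝ)) : V3) = 0 := by
      rw [Int.cast_zero]; rfl
    rw [h0] at h1
    rw [h1.fderiv]
    refine ⟨h2, ?_⟩
    rw [h3]
    have h5 : ((0 : ℝ) : UnitAddCircle) = 0 := rfl
    simp only [h5, iter_zero, rep_zero, lc_zero, Finset.sum_const, Finset.card_range,
      nsmul_eq_mul] at h4
    rw [← h4, Real.exp_log hc]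
  have hphi := Real.goldenRatio_pos
  -- the line E2
  obtain ⟨⟨w, hwE⟩, hw0, -⟩ := finrank_eq_one_iff'.1 hE2
  have hw0' : w ≠ 0 := fun h => hw0 (Subtype.ext h)
  have hwc : w ∈ Ec 0 := by
    rw [← hsup]
    exact Submodule.mem_sup_right hwE
  obtain ⟨a, b, hab⟩ := Submodule.mem_span_pair.1 hwc
  have hDw : fderiv ℝ FF 0 w ∈ E2 := by
    have : fderiv ℝ FF 0 w ∈ E2.map (fderiv ℝ FF 0 : V3 →ₗ[ℝ] V3) := ⟨w, hwE, rfl⟩
    rwa [hinv] at this
  obtain ⟨g1, g2⟩ := hD 1
  rw [Function.iterate_one] at g1 g2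
  obtain ⟨w', hw', hspan⟩ := finrank_eq_one_iff'.1 hE2
  obtain ⟨r1, hr1⟩ := hspan ⟨w, hwE⟩
  obtain ⟨r2, hr2⟩ := hspan ⟨_, hDw⟩
  have hr1' : r1 • (w' : V3) = w := congrArg Subtype.val hr1
  have hr2' : r2 • (w' : V3) = fderiv ℝ FF 0 w := congrArg Subtype.val hr2
  have hr10 : r1 ≠ 0 := by
    rintro rfl
    rw [zero_smul] at hr1'
    exact hw0' hr1'.symm
  have hlam : (r2 / r1) • w = fderiv ℝ FF 0 w := by
    rw [← hr2', ← hr1', smul_smul, div_mul_cancel₀ _ hr10]
  set t := r2 / r1 with ht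
  rw [← hab, map_add, map_smul, map_smul, g1, g2] at hlam
  have e2 := congrArg (fun z : V3 => z.2.1) hlam
  have e3 := congrArg (fun z : V3 => z.2.2) hlam
  simp only [Prod.smul_mk, Prod.mk_add_mk, smul_eq_mul, pow_one, mul_one, mul_zero, add_zero,
    zero_add, Nat.cast_one, one_mul] at e2 e3
  have ha : a ≠ 0 := by
    intro ha
    have h1 : w ∈ E1 := by
      rw [← hab, ha, zero_smul, zero_add]
      exact E1.smul_mem b hv
    have h2 : w ∈ E1 ⊓ E2 := ⟨h1, hwE⟩
    rw [hinf, Submodule.mem_bot] at h2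
    exact hw0' h2
  have htphi : t = Real.goldenRatio := by
    have : a * (t - Real.goldenRatio) = 0 := by linarith
    rcases mul_eq_zero.1 this with h | h
    · exact absurd h ha
    · linarith
  have hb : b = 0 := by
    have : b * (Real.exp (1 / 2) - Real.goldenRatio) = 0 := by rw [htphi] at e3; linarith
    rcases mul_eq_zero.1 this with h | h
    · exact h
    · exact absurd phi_lt (by linarith)
  have hgE : ((Real.goldenRatio, 1, 0) : V3) ∈ E2 := by
    have : a⁻¹ • w = ((Real.goldenRatio, 1, 0) : V3) := by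
      rw [← hab, hb, zero_smul, add_zero, smul_smul, inv_mul_cancel₀ ha, one_smul]
    rw [← this]
    exact E2.smul_mem _ hwE
  have hw1 : Real.goldenRatio⁻¹ • ((Real.goldenRatio, 1, 0) : V3) ∈ E2 := E2.smul_mem _ hgE
  have hinv1 : Real.goldenRatio⁻¹ ≤ 1 := inv_le_one_of_one_le₀ Real.one_lt_goldenRatio.le
  have hinv0 : 0 < Real.goldenRatio⁻¹ := inv_pos.2 hphi
  have hn1 : ‖Real.goldenRatio⁻¹ • ((Real.goldenRatio, 1, 0) : V3)‖ = 1 := by
    rw [Prod.smul_mk, Prod.smul_mk, Prod.norm_def, Prod.norm_def]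
    simp only [smul_eq_mul, mul_one, mul_zero, norm_zero]
    rw [inv_mul_cancel₀ hphi.ne', norm_one, Real.norm_of_nonneg hinv0.le,
      max_eq_left hinv0.le, max_eq_left hinv1]
  have hn2 : ‖((0, 0, 1) : V3)‖ = 1 := by
    rw [Prod.norm_def, Prod.norm_def]
    simp
  obtain ⟨n, hn⟩ := exists_pow_lt_of_lt_one (one_div_pos.2 hC) hl1
  have key := hdom n (0, 0, 1) hv _ hw1 hn2 hn1
  obtain ⟨k1, k2⟩ := hD n
  rw [map_smul, k1, k2] at key
  have m1 : ‖((0, 0, Real.exp (n * (1 / 2))) : V3)‖ = Real.exp (n * (1 / 2)) := by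
    rw [Prod.norm_def, Prod.norm_def]
    simp only [norm_zero]
    rw [Real.norm_of_nonneg (Real.exp_pos _).le, max_eq_right (Real.exp_pos _).le,
      max_eq_right (Real.exp_pos _).le]
  have hpn : 0 < Real.goldenRatio ^ n := pow_pos hphi n
  have m2 : ‖Real.goldenRatio⁻¹ • ((Real.goldenRatio ^ n * Real.goldenRatio,
      Real.goldenRatio ^ n, 0) : V3)‖ ≤ Real.goldenRatio ^ n := by
    rw [Prod.smul_mk, Prod.smul_mk, Prod.norm_def, Prod.norm_def]
    simp only [smul_eq_mul, mul_zero, norm_zero]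
    refine max_le ?_ (max_le ?_ hpn.le)
    · rw [Real.norm_of_nonneg (by positivity)]
      apply le_of_eq
      field_simp
    · rw [Real.norm_of_nonneg (by positivity)]
      nlinarith
  rw [m1] at key
  have m3 : Real.goldenRatio ^ n ≤ Real.exp (n * (1 / 2)) := by
    rw [Real.exp_nat_mul]
    exact pow_le_pow_left₀ hphi.le phi_lt.le n
  have hln : 0 < lam ^ n := pow_pos hl0 n
  have m4 : Real.exp (n * (1 / 2)) ≤ C * lam ^ n * Real.exp (n * (1 / 2)) :=
    key.trans (mul_le_mul_of_nonneg_left (m2.trans m3) (by positivity))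
  have m5 : C * lam ^ n < 1 := by
    rw [lt_div_iff₀ hC] at hn
    linarith
  have hexp := Real.exp_pos (n * (1 / 2))
  nlinarith

theorem taskND3 : TaskND3 := taskND3_of_der der

end Pool.Agent.H165R4.CU.ND3
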