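import Pool.Agent.H165R4.CU.Stmts

set_option autoImplicit false

open Set Filter Topology MeasureTheory Function
open scoped ContDiff ENNReal Real

namespace Pool.Agent.H257R3.CUSplit

open Pool.Agent.H165R4.CU

/-- `(φ, 1, 0)` -/
noncomputable def uu : V3 := (Real.goldenRatio, 1, 0)

/-- `(0, 0, 1)` -/
noncomputable def ee : V3 := (0, 0, 1)

theorem Ec_eq (w : T3) : Ec w = Submodule.span ℝ {uu, ee} := rfl

theorem mem_Ec {w : T3} {x : V3} : x ∈ Ec w ↔ x.1 = Real.goldenRatio * x.2.1 := by
  rw [Ec_eq, Submodule.mem_span_pair]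
  constructor
  · rintro ⟨a, b, rfl⟩
    simp [uu, ee]
    ring
  · intro h
    refine ⟨x.2.1, x.2.2, ?_⟩
    ext
    · simp [uu, ee, h]
      ring
    · simp [uu, ee]
    · simp [uu, ee]

theorem mem_Es {S : T3 → ℝ} {w : T3} {x : V3} :
    x ∈ Es S w ↔ x.1 = Real.goldenConj * x.2.1 ∧ x.2.2 = S w * x.2.1 := by
  unfold Es
  rw [Submodule.mem_span_singleton]
  constructor
  · rintro ⟨a, rfl⟩
    constructor
    · simp
      ring
    · simp
      ring
  · rintro ⟨h1, h2⟩
    refine ⟨x.2.1, ?_⟩
    ext
    · simp [h1]
      ring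
    · simp
    · simp [h2]
      ring

theorem phi_sq : Real.goldenRatio * Real.goldenRatio = Real.goldenRatio + 1 := by
  have := Real.goldenRatio_sq
  rw [sq] at this
  exact this

theorem psi_sq : Real.goldenConj * Real.goldenConj = Real.goldenConj + 1 := by
  have := Real.goldenConj_sq
  rw [sq] at this
  exact this

theorem ne : Real.goldenRatio - Real.goldenConj ≠ 0 := by
  have h1 := Real.goldenRatio_pos
  have h2 := Real.goldenConj_neg
  intro h
  linarith

theorem alg1 (p y : ℝ) (hp0 : p ≠ 0) (hp : p * p = p + 1) : y / p * p + y / p * 1 = p * y := by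
  field_simp
  linear_combination (-y) * hp

theorem alg3 (p y g a s s' : ℝ) (hp0 : p ≠ 0) (h : p * s' = g * p + a * s) :
    g * (y / p * p) + a * (y / p * s) = s' * y := by
  field_simp
  linear_combination (-y) * h

theorem alg4 (p y : ℝ) (hp0 : p ≠ 0) (hp : p * p = p + 1) : y + y / p = p * y := by
  field_simp
  linear_combination (-y) * hp

theorem taskSplit' : TaskSplit := by
  intro hL hD hB S hS hco
  have hder : ∀ z v : V3, fderiv ℝ FF z v =
      (v.1 + v.2.1, v.1, gg z.1 z.2.2 * v.1 + aa z.1 z.2.2 * v.2.2) := by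
    intro z v
    obtain ⟨D, hD1, hD2⟩ := hD z
    rw [hD1.fderiv, hD2]
  have hpsi0 : Real.goldenConj ≠ 0 := Real.goldenConj_neg.ne
  have hphi0 : Real.goldenRatio ≠ 0 := Real.goldenRatio_pos.ne'
  refine ⟨fun w => ?_, ?_, ?_, ?_, ?_⟩
  · -- complements
    rw [isCompl_iff, disjoint_iff, codisjoint_iff]
    constructor
    · rw [eq_bot_iff]
      intro x hx
      obtain ⟨h1, h2⟩ := Submodule.mem_inf.1 hx
      rw [mem_Es] at h1
      rw [mem_Ec] at h2
      have h3 : (Real.goldenRatio - Real.goldenConj) * x.2.1 = 0 := by
        rw [sub_mul, ← h2, ← h1.1, sub_self]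
      have h4 : x.2.1 = 0 := by
        rcases mul_eq_zero.1 h3 with h | h
        · exact absurd h ne
        · exact h
      rw [Submodule.mem_bot]
      ext
      · rw [h2, h4]
        simp
      · rw [h4]
        simp
      · rw [h1.2, h4]
        simp
    · rw [eq_top_iff]
      intro x _
      -- `x = t (ψ, 1, S) + rest`, `t = (φ x₂ - x₁) / (φ - ψ)`
      obtain ⟨t, ht⟩ : ∃ t : ℝ, t = (Real.goldenRatio * x.2.1 - x.1) /
        (Real.goldenRatio - Real.goldenConj) := ⟨_, rfl⟩
      have ht' : t * (Real.goldenRatio - Real.goldenConj) = Real.goldenRatio * x.2.1 - x.1 := by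
        rw [ht]
        exact div_mul_cancel₀ _ ne
      rw [Submodule.mem_sup]
      refine ⟨t • ((Real.goldenConj, 1, S w) : V3), ?_, x - t • ((Real.goldenConj, 1, S w) : V3),
        ?_, by abel⟩
      · exact Submodule.smul_mem _ _ (Submodule.mem_span_singleton_self _)
      · rw [mem_Ec]
        simp
        linarith
  · -- invariance of Es
    intro z _
    apply le_antisymm
    · rintro _ ⟨x, hx, rfl⟩
      have hx' := mem_Es.1 hx
      rw [mem_Es]
      change (fderiv ℝ FF z x).1 = Real.goldenConj * (fderiv ℝ FF z x).2.1 ∧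
        (fderiv ℝ FF z x).2.2 = S (ff (pr z)) * (fderiv ℝ FF z x).2.1
      rw [hder]
      have h1 := hco z
      obtain ⟨h2, h3⟩ := hx'
      constructor
      · simp only
        rw [h2, ← mul_assoc, psi_sq]
        ring
      · simp only
        rw [h2, h3]
        linear_combination (-x.2.1) * h1
    · intro y hy
      have hy' := mem_Es.1 hy
      obtain ⟨h2, h3⟩ := hy'
      refine ⟨((y.2.1 / Real.goldenConj) • ((Real.goldenConj, 1, S (pr z)) : V3)), ?_, ?_⟩
      · exact Submodule.smul_mem _ _ (Submodule.mem_span_singleton_self _)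
      · change fderiv ℝ FF z _ = y
        rw [hder]
        have h1 := hco z
        have hp := psi_sq
        ext
        · rw [h2]
          exact alg1 _ _ hpsi0 hp
        · exact div_mul_cancel₀ _ hpsi0
        · rw [h3]
          exact alg3 _ _ _ _ _ _ hpsi0 h1
  · -- invariance of Ec
    intro z _
    have haa : aa z.1 z.2.2 ≠ 0 := by
      have := (hB z.1 z.2.2).2.2.1
      intro h
      rw [h] at this
      norm_num at this
    apply le_antisymm
    · rintro _ ⟨x, hx, rfl⟩
      have hx' := mem_Ec.1 hx
      rw [mem_Ec]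
      change (fderiv ℝ FF z x).1 = Real.goldenRatio * (fderiv ℝ FF z x).2.1
      rw [hder]
      simp only
      rw [hx', ← mul_assoc, phi_sq]
      ring
    · intro y hy
      have hy' := mem_Ec.1 hy
      refine ⟨((y.2.1, y.2.1 / Real.goldenRatio,
        (y.2.2 - gg z.1 z.2.2 * y.2.1) / aa z.1 z.2.2) : V3), ?_, ?_⟩
      · change _ ∈ Ec (pr z)
        rw [mem_Ec]
        simp only
        field_simp
      · change fderiv ℝ FF z _ = y
        rw [hder]
        have hp := phi_sq
        ext
        · rw [hy']
          exact alg4 _ _ hphi0 hp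
        · rfl
        · simp only
          field_simp
          ring
  · -- Es is a line bundle
    intro x _
    have hne : ∀ w, ((Real.goldenConj, 1, S w) : V3) ≠ 0 := by
      intro w h
      have := congrArg (fun v : V3 => v.2.1) h
      simp at this
    refine ⟨?_, fun _ w => ((Real.goldenConj, 1, S w) : V3), fun i => ?_, ?_, ?_⟩
    · unfold Es
      exact finrank_span_singleton (hne x)
    · apply Continuous.continuousWithinAt
      fun_prop
    · exact linearIndependent_unique_iff.2 (hne x)
    · exact Eventually.of_forall fun y i => Submodule.mem_span_singleton_self _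
  · -- Ec is a plane bundle
    intro x _
    have hli : LinearIndependent ℝ (fun i : Fin 2 => (![uu, ee] i : V3)) := by
      have : LinearIndependent ℝ ![uu, ee] := by
        rw [LinearIndependent.pair_iff]
        intro s t h
        have h1 := congrArg (fun v : V3 => v.2.1) h
        have h2 := congrArg (fun v : V3 => v.2.2) h
        simp [uu, ee] at h1 h2
        exact ⟨h1, h2⟩
      exact this
    refine ⟨?_, fun i _ => ![uu, ee] i, fun i => continuousWithinAt_const, hli, ?_⟩
    · have h1 := finrank_span_eq_card hli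
      rw [Ec_eq]
      have h2 : Set.range (fun i : Fin 2 => (![uu, ee] i : V3)) = {uu, ee} := by
        have : (fun i : Fin 2 => (![uu, ee] i : V3)) = ![uu, ee] := rfl
        rw [this, Matrix.range_cons, Matrix.range_cons, Matrix.range_empty]
        simp [Set.union_comm]
      rw [h2] at h1
      rw [h1]
      simp
    · refine Eventually.of_forall fun y i => ?_
      rw [Ec_eq]
      fin_cases i
      · exact Submodule.subset_span (by simp)
      · exact Submodule.subset_span (by simp)

end Pool.Agent.H257R3.CUSplit

namespace Pool.Agent.H165R4.CU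

theorem taskSplit : TaskSplit := Pool.Agent.H257R3.CUSplit.taskSplit'

end Pool.Agent.H165R4.CU
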