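import Pool.Agent.H165R4.CU.Stmts

set_option autoImplicit false

open Set Filter Topology MeasureTheory Function
open scoped ContDiff ENNReal Real

namespace Pool.Agent.H165R4.CU.StProof

open Pool.Agent.H165R4.CU

lemma rep_coe (x : ℝ) : ∃ m : ℤ, rep (x : UnitAddCircle) = x + m := by
  have h : ((rep (x : UnitAddCircle) : ℝ) : UnitAddCircle) = (x : UnitAddCircle) := by
    unfold rep
    exact (AddCircle.equivIco (1 : ℝ) 0).symm_apply_apply (x : UnitAddCircle)
  have h2 : ((rep (x : UnitAddCircle) - x : ℝ) : UnitAddCircle) = 0 := by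
    rw [AddCircle.coe_sub, h, sub_self]
  obtain ⟨m, hm⟩ := (AddCircle.coe_eq_zero_iff (p := (1 : ℝ))).1 h2
  refine ⟨m, ?_⟩
  have : (m : ℝ) = rep (x : UnitAddCircle) - x := by
    simpa using hm
  linarith

lemma cos2 (x : ℝ) (m : ℤ) : Real.cos (2 * π * (x + m)) = Real.cos (2 * π * x) := by
  rw [show 2 * π * (x + m) = 2 * π * x + m * (2 * π) by ring, Real.cos_add_int_mul_two_pi]

lemma sin2 (x : ℝ) (m : ℤ) : Real.sin (2 * π * (x + m)) = Real.sin (2 * π * x) := by
  rw [show 2 * π * (x + m) = 2 * π * x + m * (2 * π) by ring, Real.sin_add_int_mul_two_pi]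

lemma cos4 (x : ℝ) (m : ℤ) : Real.cos (4 * π * (x + m)) = Real.cos (4 * π * x) := by
  rw [show 4 * π * (x + m) = 4 * π * x + ((2 * m : ℤ) : ℝ) * (2 * π) by push_cast; ring,
    Real.cos_add_int_mul_two_pi]

lemma sin4 (x : ℝ) (m : ℤ) : Real.sin (4 * π * (x + m)) = Real.sin (4 * π * x) := by
  rw [show 4 * π * (x + m) = 4 * π * x + ((2 * m : ℤ) : ℝ) * (2 * π) by push_cast; ring,
    Real.sin_add_int_mul_two_pi]

lemma cc_per (x : ℝ) (m : ℤ) : cc (x + m) = cc x := by
  unfold cc lc
  rw [cos2]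

lemma aa_per (x y : ℝ) (m n : ℤ) : aa (x + m) (y + n) = aa x y := by
  unfold aa
  rw [cc_per, cos2, cos4]

lemma gg_per (x y : ℝ) (m n : ℤ) : gg (x + m) (y + n) = gg x y := by
  unfold gg s1
  rw [cc_per, cos2, sin2, sin2, sin4]

lemma cc_cont : Continuous cc := by
  unfold cc lc
  fun_prop

lemma aa_cont : Continuous (fun z : V3 => aa z.1 z.2.2) := by
  have h := cc_cont
  unfold aa
  fun_prop

lemma gg_cont : Continuous (fun z : V3 => gg z.1 z.2.2) := by
  have h := cc_cont
  unfold gg s1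
  fun_prop

lemma pr_quot : IsQuotientMap pr := by
  have h1 : IsOpenQuotientMap (fun x : ℝ => (x : UnitAddCircle)) :=
    QuotientAddGroup.isOpenQuotientMap_mk
  exact (h1.prodMap (h1.prodMap h1)).isQuotientMap

noncomputable def A (w : T3) : ℝ := aa (rep w.1) (rep w.2.2)
noncomputable def G (w : T3) : ℝ := gg (rep w.1) (rep w.2.2)

lemma A_pr (z : V3) : A (pr z) = aa z.1 z.2.2 := by
  obtain ⟨m, hm⟩ := rep_coe z.1
  obtain ⟨n, hn⟩ := rep_coe z.2.2
  show aa (rep (z.1 : UnitAddCircle)) (rep (z.2.2 : UnitAddCircle)) = _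
  rw [hm, hn, aa_per]

lemma G_pr (z : V3) : G (pr z) = gg z.1 z.2.2 := by
  obtain ⟨m, hm⟩ := rep_coe z.1
  obtain ⟨n, hn⟩ := rep_coe z.2.2
  show gg (rep (z.1 : UnitAddCircle)) (rep (z.2.2 : UnitAddCircle)) = _
  rw [hm, hn, gg_per]

lemma A_cont : Continuous A := by
  rw [pr_quot.continuous_iff]
  have : A ∘ pr = fun z : V3 => aa z.1 z.2.2 := funext A_pr
  rw [this]
  exact aa_cont

lemma G_cont : Continuous G := by
  rw [pr_quot.continuous_iff]
  have : G ∘ pr = fun z : V3 => gg z.1 z.2.2 := funext G_pr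
  rw [this]
  exact gg_cont

lemma psi_abs : |Real.goldenConj| < 5 / 8 := by
  have h5 : Real.sqrt 5 < 9 / 4 := by
    rw [Real.sqrt_lt' (by norm_num)]
    norm_num
  have h1 : (1 : ℝ) ≤ Real.sqrt 5 := by
    rw [Real.one_le_sqrt]
    norm_num
  unfold Real.goldenConj
  rw [abs_lt]
  constructor <;> linarith

theorem taskSt : TaskSt := by
  intro hL hB
  obtain ⟨hlift, hsm, hcont⟩ := hL
  have hA : ∀ w, 5 / 8 ≤ A w := fun w => (hB _ _).2.2.1
  have hA0 : ∀ w, A w ≠ 0 := fun w => by
    have := hA w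
    exact ne_of_gt (by linarith)
  -- the contraction
  let T : C(T3, ℝ) → C(T3, ℝ) := fun S =>
    ⟨fun w => (Real.goldenConj * S (ff w) - Real.goldenConj * G w) / A w,
      (((continuous_const.mul (S.continuous.comp hcont)).sub
        (continuous_const.mul G_cont)).div A_cont hA0)⟩
  let K : NNReal := ⟨|Real.goldenConj| / (5 / 8), by positivity⟩
  have hK : K < 1 := by
    have : (K : ℝ) < 1 := by
      show |Real.goldenConj| / (5 / 8) < 1
      rw [div_lt_one (by norm_num)]
      exact psi_abs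
    exact_mod_cast this
  have hT : ContractingWith K T := by
    refine ⟨hK, LipschitzWith.of_dist_le_mul fun S S' => ?_⟩
    rw [ContinuousMap.dist_le (by positivity)]
    intro w
    rw [Real.dist_eq]
    show |(Real.goldenConj * S (ff w) - Real.goldenConj * G w) / A w -
      (Real.goldenConj * S' (ff w) - Real.goldenConj * G w) / A w| ≤
        |Real.goldenConj| / (5 / 8) * dist S S'
    have e1 : (Real.goldenConj * S (ff w) - Real.goldenConj * G w) / A w -
        (Real.goldenConj * S' (ff w) - Real.goldenConj * G w) / A w =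
          Real.goldenConj * (S (ff w) - S' (ff w)) / A w := by
      field_simp
      ring
    rw [e1, abs_div, abs_mul]
    have hAw := hA w
    have h2 : |S (ff w) - S' (ff w)| ≤ dist S S' := by
      have := ContinuousMap.dist_apply_le_dist (f := S) (g := S') (ff w)
      rwa [Real.dist_eq] at this
    have h3 : |A w| = A w := abs_of_nonneg (by linarith)
    rw [h3, div_mul_eq_mul_div]
    apply div_le_div₀ (by positivity) _ (by norm_num) hAw
    exact mul_le_mul_of_nonneg_left h2 (abs_nonneg _)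
  let S := ContractingWith.fixedPoint T hT
  have hS : T S = S := hT.fixedPoint_isFixedPt
  refine ⟨S, S.continuous, fun z => ?_⟩
  have h := DFunLike.congr_fun hS (pr z)
  have h' : (Real.goldenConj * S (ff (pr z)) - Real.goldenConj * G (pr z)) / A (pr z) =
      S (pr z) := h
  rw [div_eq_iff (hA0 _), G_pr, A_pr] at h'
  linarith

end Pool.Agent.H165R4.CU.StProof

namespace Pool.Agent.H165R4.CU

theorem taskSt : TaskSt := StProof.taskSt

end Pool.Agent.H165R4.CU
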