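import Pool.Agent.H165R4.CU.Stmts

set_option autoImplicit false

open Set Filter Topology MeasureTheory Function
open scoped ContDiff ENNReal Real

namespace Pool.Agent.H165R4.CU

lemma Trap_s1_odd (y : ℝ) : s1 (-y) = -s1 y := by
  unfold s1
  rw [show 2 * π * (-y) = -(2 * π * y) by ring, show 4 * π * (-y) = -(4 * π * y) by ring,
    Real.sin_neg, Real.sin_neg]
  ring

lemma Trap_s2_odd (y : ℝ) : s2 (-y) = -s2 y := by
  unfold s2
  rw [show 2 * π * (-y) = -(2 * π * y) by ring, show 4 * π * (-y) = -(4 * π * y) by ring,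
    Real.sin_neg, Real.sin_neg]
  ring

lemma Trap_hh_odd (x y : ℝ) : hh x (-y) = -hh x y := by
  unfold hh
  rw [Trap_s1_odd, Trap_s2_odd]
  ring

lemma Trap_deriv (x y : ℝ) : HasDerivAt (hh x) (aa x y) y := by
  have hpi : (π : ℝ) ≠ 0 := Real.pi_ne_zero
  have h2 : HasDerivAt (fun y : ℝ => Real.sin (2 * π * y)) (Real.cos (2 * π * y) * (2 * π)) y := by
    have h := ((hasDerivAt_id y).const_mul (2 * π)).sin
    simpa using h
  have h4 : HasDerivAt (fun y : ℝ => Real.sin (4 * π * y)) (Real.cos (4 * π * y) * (4 * π)) y := by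
    have h := ((hasDerivAt_id y).const_mul (4 * π)).sin
    simpa using h
  have hs1 : HasDerivAt s1 ((Real.cos (2 * π * y) * (2 * π) +
      Real.cos (4 * π * y) * (4 * π) / 2) / (4 * π)) y :=
    (h2.fun_add (h4.div_const 2)).div_const (4 * π)
  have hs2 : HasDerivAt s2 ((-(1 / 50) * (Real.cos (2 * π * y) * (2 * π) -
      Real.cos (4 * π * y) * (4 * π) / 2)) / (4 * π)) y :=
    ((h2.fun_sub (h4.div_const 2)).const_mul (-(1 / 50))).div_const (4 * π)
  have h := ((hasDerivAt_id y).fun_add (hs1.const_mul (cc x - 1))).fun_add hs2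
  refine HasDerivAt.congr_deriv (f := hh x) h ?_
  unfold aa
  field_simp
  ring

lemma Trap_mono (hb : TaskBd) (x : ℝ) : Monotone (hh x) := by
  have hd : Differentiable ℝ (hh x) := fun y => (Trap_deriv x y).differentiableAt
  refine monotone_of_deriv_nonneg hd fun y => ?_
  rw [(Trap_deriv x y).deriv]
  have := (hb x y).2.2.1
  linarith

lemma Trap_val (hb : TaskBd) (x : ℝ) : hh x (9 / 20) ≤ 9 / 20 - 1 / 10000 := by
  have hpi1 : π < 3.1416 := Real.pi_lt_d4
  have hpi0 : 3.1415 < π := Real.pi_gt_d4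
  set s := Real.sin (π / 10) with hs
  set c := Real.cos (π / 10) with hc
  have e1 : Real.sin (2 * π * (9 / 20)) = s := by
    rw [show 2 * π * (9 / 20) = π - π / 10 by ring, Real.sin_pi_sub]
  have e2 : Real.sin (4 * π * (9 / 20)) = -(2 * s * c) := by
    rw [show 4 * π * (9 / 20) = 2 * π - 2 * (π / 10) by ring, Real.sin_two_pi_sub,
      Real.sin_two_mul]
  have hs0 : 3 / 10 ≤ s := by
    have h := Real.sin_gt_sub_cube (x := π / 10) (by positivity)
    have h1 : (π / 10) ^ 3 ≤ 0.032 := by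
      have h2 : (π / 10) ≤ 0.31416 := by linarith
      have h3 : (0 : ℝ) ≤ π / 10 := by positivity
      calc (π / 10) ^ 3 ≤ 0.31416 ^ 3 := pow_le_pow_left₀ h3 h2 3
        _ ≤ 0.032 := by norm_num
    rw [hs]
    linarith
  have hc0 : 1 - c ≤ 0.04936 := by
    have h := Real.one_sub_sq_div_two_le_cos (x := π / 10)
    have h1 : (π / 10) ^ 2 ≤ 0.0987 := by
      have h2 : (π / 10) ≤ 0.31416 := by linarith
      have h3 : (0 : ℝ) ≤ π / 10 := by positivity
      calc (π / 10) ^ 2 ≤ 0.31416 ^ 2 := pow_le_pow_left₀ h3 h2 2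
        _ ≤ 0.0987 := by norm_num
    rw [hc]
    linarith
  have hc1 : c ≤ 1 := Real.cos_le_one _
  have hcc : cc x - 1 ≤ 13 / 20 := by
    have := (hb x 0).2.1
    linarith
  have hS1 : s1 (9 / 20) = s * (1 - c) / (4 * π) := by
    unfold s1
    rw [e1, e2]
    ring
  have hS2 : s2 (9 / 20) = -(1 / 50) * (s * (1 + c)) / (4 * π) := by
    unfold s2
    rw [e1, e2]
    ring
  have h1c : 0 ≤ 1 - c := by linarith
  have hs1nn : 0 ≤ s1 (9 / 20) := by
    rw [hS1]
    have : 0 ≤ s := by linarith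
    positivity
  have hmul : (cc x - 1) * s1 (9 / 20) ≤ 13 / 20 * s1 (9 / 20) :=
    mul_le_mul_of_nonneg_right hcc hs1nn
  have hkey : 13 / 20 * s1 (9 / 20) + s2 (9 / 20) ≤ -(1 / 10000) := by
    rw [hS1, hS2]
    have h5 : 13 / 20 * (s * (1 - c) / (4 * π)) + -(1 / 50) * (s * (1 + c)) / (4 * π) =
        s * (13 / 20 * (1 - c) - 1 / 50 * (1 + c)) / (4 * π) := by ring
    rw [h5, div_le_iff₀ (by positivity)]
    have h6 : 13 / 20 * (1 - c) - 1 / 50 * (1 + c) ≤ -0.0069 := by linarith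
    nlinarith
  unfold hh
  linarith

lemma Trap_abs (hb : TaskBd) (x y : ℝ) (hy : |y| ≤ 9 / 20) : |hh x y| ≤ 9 / 20 - 1 / 10000 := by
  rw [abs_le] at hy ⊢
  have hm := Trap_mono hb x
  have h1 := hm hy.2
  have h2 := hm hy.1
  have h3 := Trap_val hb x
  rw [Trap_hh_odd] at h2
  constructor <;> linarith

lemma Trap_lift (a : UnitAddCircle) : ∃ y : ℝ, (y : UnitAddCircle) = a ∧ |y| = ‖a‖ := by
  obtain ⟨y0, rfl⟩ := QuotientAddGroup.mk_surjective a
  refine ⟨y0 - round y0, ?_, ?_⟩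
  · have h : ((round y0 : ℝ) : UnitAddCircle) = 0 := by
      rw [AddCircle.coe_eq_zero_iff]
      exact ⟨round y0, by simp⟩
    change ((y0 - (round y0 : ℝ) : ℝ) : UnitAddCircle) = (y0 : UnitAddCircle)
    rw [AddCircle.coe_sub, h, sub_zero]
  · exact (UnitAddCircle.norm_eq (x := y0)).symm

lemma Trap_norm (y : ℝ) (hy : |y| ≤ 1 / 2) : ‖(y : UnitAddCircle)‖ = |y| := by
  have h := (AddCircle.norm_coe_eq_abs_iff (p := (1 : ℝ)) (x := y) one_ne_zero).mpr
    (by simpa using hy)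
  exact h

lemma Trap_image (hl : TaskLift) (hb : TaskBd) (w : T3) (hw : w ∈ NN) :
    ‖(ff w).2.2‖ ≤ 9 / 20 - 1 / 10000 := by
  obtain ⟨x1, h1, -⟩ := Trap_lift w.1
  obtain ⟨x2, h2, -⟩ := Trap_lift w.2.1
  obtain ⟨y, h3, h4⟩ := Trap_lift w.2.2
  have hw' : ‖w.2.2‖ ≤ 9 / 20 := hw
  have hy : |y| ≤ 9 / 20 := by rw [h4]; exact hw'
  have hz : w = pr (x1, x2, y) := by
    unfold pr
    simp only [h1, h2, h3]
  rw [hz, hl.1]
  have h5 : (pr (FF (x1, x2, y))).2.2 = ((hh x1 y : ℝ) : UnitAddCircle) := rfl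
  rw [h5]
  have h6 := Trap_abs hb x1 y hy
  rw [Trap_norm _ (by linarith)]
  exact h6

theorem taskTrap : TaskTrap := by
  intro hl _ hb
  have hcont : Continuous (fun w : T3 => ‖w.2.2‖) := by fun_prop
  refine ⟨isClosed_le hcont continuous_const, ?_, ?_⟩
  · rintro _ ⟨w, hw, rfl⟩
    have hopen : IsOpen {w : T3 | ‖w.2.2‖ < 9 / 20} := isOpen_lt hcont continuous_const
    have hsub : {w : T3 | ‖w.2.2‖ < 9 / 20} ⊆ NN := by
      intro w hw
      have hw' : ‖w.2.2‖ < 9 / 20 := hw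
      exact hw'.le
    refine interior_maximal hsub hopen ?_
    have := Trap_image hl hb w hw
    change ‖(ff w).2.2‖ < 9 / 20
    linarith
  · refine ⟨{w : T3 | 9 / 20 - 1 / 10000 < ‖w.2.2‖} ∩ {w : T3 | ‖w.2.2‖ < 9 / 20},
      (isOpen_lt continuous_const hcont).inter (isOpen_lt hcont continuous_const), ?_, ?_⟩
    · refine ⟨((0 : UnitAddCircle), (0 : UnitAddCircle), ((9 / 20 - 1 / 20000 : ℝ) : UnitAddCircle)),
        ?_, ?_⟩
      · change 9 / 20 - 1 / 10000 < ‖((9 / 20 - 1 / 20000 : ℝ) : UnitAddCircle)‖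
        rw [Trap_norm _ (by rw [abs_of_pos] <;> norm_num), abs_of_pos (by norm_num)]
        norm_num
      · change ‖((9 / 20 - 1 / 20000 : ℝ) : UnitAddCircle)‖ < 9 / 20
        rw [Trap_norm _ (by rw [abs_of_pos] <;> norm_num), abs_of_pos (by norm_num)]
        norm_num
    · rintro w ⟨h1, h2⟩
      have h2' : ‖w.2.2‖ < 9 / 20 := h2
      refine ⟨h2'.le, ?_⟩
      rintro ⟨v, hv, rfl⟩
      have := Trap_image hl hb v hv
      have h1' : 9 / 20 - 1 / 10000 < ‖(ff v).2.2‖ := h1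
      linarith

end Pool.Agent.H165R4.CU
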